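import Pool.Agent.Q49.CQ.Defs

set_option autoImplicit false

open MvPolynomial Pool.Agent.Helper346.Cd

namespace Pool.Agent.Q49.CQ

theorem lo_ne_hi {m : ℕ} (j j' : Fin (m + 1)) : lo j ≠ hi j' := by
  intro h
  have := congrArg Fin.val h
  simp only [lo, hi] at this
  omega

theorem lo_inj {m : ℕ} {j j' : Fin (m + 1)} (h : lo j = lo j') : j = j' := by
  have := congrArg Fin.val h
  simp only [lo] at this
  ext
  omega

theorem hi_inj {m : ℕ} {j j' : Fin (m + 1)} (h : hi j = hi j') : j = j' := by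
  have := congrArg Fin.val h
  simp only [hi] at this
  ext
  omega

theorem lo_or_hi {m : ℕ} (i : Fin (2 * m + 1 + 1)) : (∃ j, i = lo j) ∨ ∃ j, i = hi j := by
  rcases Nat.even_or_odd' (i : ℕ) with ⟨c, hc | hc⟩
  · exact Or.inl ⟨⟨c, by omega⟩, by ext; simp [lo, hc]⟩
  · exact Or.inr ⟨⟨c, by omega⟩, by ext; simp [hi, hc]⟩

theorem qf_homogeneous {k : Type*} [Field k] (m : ℕ) (a : Fin (2 * m + 1 + 1) → k)
    (e : Fin (m + 1) → k) : (qf m a e).IsHomogeneous 2 := by
  unfold qf
  apply IsHomogeneous.add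
  · apply IsHomogeneous.sum
    intro i _
    have h1 := (isHomogeneous_C (Fin (2 * m + 1 + 1)) (a i)).mul ((isHomogeneous_X k i).pow 2)
    simpa using h1
  · apply IsHomogeneous.sum
    intro j _
    have h1 := (isHomogeneous_C (Fin (2 * m + 1 + 1)) (e j)).mul
      ((isHomogeneous_X k (lo j)).mul (isHomogeneous_X k (hi j)))
    simpa using h1

theorem aeval_qf {k A : Type*} [Field k] [CommRing A] [Algebra k A] (m : ℕ)
    (a : Fin (2 * m + 1 + 1) → k) (e : Fin (m + 1) → k) (x : Fin (2 * m + 1 + 1) → A) :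
    aeval x (qf m a e) = ∑ i, algebraMap k A (a i) * x i ^ 2 +
      ∑ j, algebraMap k A (e j) * (x (lo j) * x (hi j)) := by
  unfold qf
  simp

theorem pderiv_sq {k : Type*} [Field k] [CharP k 2] {n : ℕ} (i j : Fin n) (a : k) :
    pderiv i (C a * X j ^ 2 : MvPolynomial (Fin n) k) = 0 := by
  have h2 : (2 : MvPolynomial (Fin n) k) = 0 := by
    have := CharP.cast_eq_zero (MvPolynomial (Fin n) k) 2
    simpa using this
  rw [pderiv_C_mul, Derivation.leibniz_pow]
  simp [h2]

theorem aeval_pderiv_lo {k A : Type*} [Field k] [CharP k 2] [CommRing A] [Algebra k A] (m : ℕ)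
    (a : Fin (2 * m + 1 + 1) → k) (e : Fin (m + 1) → k) (x : Fin (2 * m + 1 + 1) → A)
    (j : Fin (m + 1)) : aeval x (pderiv (lo j) (qf m a e)) = algebraMap k A (e j) * x (hi j) := by
  unfold qf
  rw [map_add, map_sum, map_sum, Finset.sum_congr rfl (fun i _ => pderiv_sq (lo j) i (a i)),
    Finset.sum_const_zero, zero_add, map_sum, Finset.sum_eq_single j]
  · rw [pderiv_C_mul, Derivation.leibniz, pderiv_X, pderiv_X, Pi.single_eq_same,
      Pi.single_eq_of_ne (fun h => lo_ne_hi j j h.symm)]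
    simp
  · intro j' _ hj'
    rw [pderiv_C_mul, Derivation.leibniz, pderiv_X, pderiv_X,
      Pi.single_eq_of_ne (fun h => hj' (lo_inj h)),
      Pi.single_eq_of_ne (fun h => lo_ne_hi j j' h.symm)]
    simp
  · intro h; exact absurd (Finset.mem_univ _) h

theorem aeval_pderiv_hi {k A : Type*} [Field k] [CharP k 2] [CommRing A] [Algebra k A] (m : ℕ)
    (a : Fin (2 * m + 1 + 1) → k) (e : Fin (m + 1) → k) (x : Fin (2 * m + 1 + 1) → A)
    (j : Fin (m + 1)) : aeval x (pderiv (hi j) (qf m a e)) = algebraMap k A (e j) * x (lo j) := by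
  unfold qf
  rw [map_add, map_sum, map_sum, Finset.sum_congr rfl (fun i _ => pderiv_sq (hi j) i (a i)),
    Finset.sum_const_zero, zero_add, map_sum, Finset.sum_eq_single j]
  · rw [pderiv_C_mul, Derivation.leibniz, pderiv_X, pderiv_X, Pi.single_eq_same,
      Pi.single_eq_of_ne (lo_ne_hi j j)]
    simp
  · intro j' _ hj'
    rw [pderiv_C_mul, Derivation.leibniz, pderiv_X, pderiv_X,
      Pi.single_eq_of_ne (fun h => hj' (hi_inj h)),
      Pi.single_eq_of_ne (lo_ne_hi j' j)]
    simp
  · intro h; exact absurd (Finset.mem_univ _) h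

/-- Smoothness over an arbitrary extension field. -/
theorem smooth_core {k K : Type*} [Field k] [Field K] [Algebra k K] [CharP k 2] (m : ℕ)
    (a b : Fin (2 * m + 1 + 1) → k)
    (lam : Fin (m + 1) → k) (hlam : Function.Injective lam) (c : k) (hc : c ≠ 0)
    (ha : ∀ i, a i ≠ 0)
    (hres : ∀ j, (a (lo j) * b (hi j) + a (hi j) * b (lo j)) ^ 2 ≠
      c ^ 2 * ((lam j * a (lo j) + b (lo j)) * (lam j * a (hi j) + b (hi j)))) :
    ∀ x : Fin (2 * m + 1 + 1) → K, x ≠ 0 → aeval x (qf m a (fun _ => c)) = 0 →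
      aeval x (qf m b (fun j => c * lam j)) = 0 →
      LinearIndependent K
        ![fun i => aeval x (pderiv i (qf m a (fun _ => c))),
          fun i => aeval x (pderiv i (qf m b (fun j => c * lam j)))] := by
  intro x hx0 hF hG
  have hchar : CharP K 2 := charP_of_injective_algebraMap (algebraMap k K).injective 2
  have h2 : (2 : K) = 0 := by
    have := CharP.cast_eq_zero K 2
    simpa using this
  rw [LinearIndependent.pair_iff]
  intro u v huv
  by_contra hne
  have hrel : ∀ i, u * aeval x (pderiv i (qf m a (fun _ => c))) +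
      v * aeval x (pderiv i (qf m b (fun j => c * lam j))) = 0 := by
    intro i
    have := congrFun huv i
    simpa using this
  have hc' : algebraMap k K c ≠ 0 := by simpa using hc
  have hlo : ∀ j, (u + v * algebraMap k K (lam j)) * x (hi j) = 0 := by
    intro j
    have h := hrel (lo j)
    rw [aeval_pderiv_lo, aeval_pderiv_lo, map_mul] at h
    apply mul_left_cancel₀ hc'
    rw [mul_zero]
    linear_combination h
  have hhi : ∀ j, (u + v * algebraMap k K (lam j)) * x (lo j) = 0 := by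
    intro j
    have h := hrel (hi j)
    rw [aeval_pderiv_hi, aeval_pderiv_hi, map_mul] at h
    apply mul_left_cancel₀ hc'
    rw [mul_zero]
    linear_combination h
  -- the block carrying `x`
  obtain ⟨j0, hj0⟩ : ∃ j, x (lo j) ≠ 0 ∨ x (hi j) ≠ 0 := by
    by_contra hcon
    push Not at hcon
    apply hx0
    funext i
    rcases lo_or_hi i with ⟨j, rfl⟩ | ⟨j, rfl⟩
    · exact (hcon j).1
    · exact (hcon j).2
  have huv0 : u + v * algebraMap k K (lam j0) = 0 := by
    rcases hj0 with h | h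
    · exact (mul_eq_zero.1 (hhi j0)).resolve_right h
    · exact (mul_eq_zero.1 (hlo j0)).resolve_right h
  have hv : v ≠ 0 := by
    rintro rfl
    rw [zero_mul, add_zero] at huv0
    exact hne ⟨huv0, rfl⟩
  have hother : ∀ j, j ≠ j0 → x (lo j) = 0 ∧ x (hi j) = 0 := by
    intro j hj
    have h1 : u + v * algebraMap k K (lam j) ≠ 0 := by
      intro h1
      have h3 : v * (algebraMap k K (lam j) - algebraMap k K (lam j0)) = 0 := by
        linear_combination h1 - huv0
      rcases mul_eq_zero.1 h3 with h3 | h3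
      · exact hv h3
      · exact hj (hlam ((algebraMap k K).injective (sub_eq_zero.1 h3)))
    exact ⟨(mul_eq_zero.1 (hhi j)).resolve_left h1, (mul_eq_zero.1 (hlo j)).resolve_left h1⟩
  have hzero : ∀ i, i ≠ lo j0 → i ≠ hi j0 → x i = 0 := by
    intro i h1 h3
    rcases lo_or_hi i with ⟨j, rfl⟩ | ⟨j, rfl⟩
    · exact (hother j (fun h => h1 (by rw [h]))).1
    · exact (hother j (fun h => h3 (by rw [h]))).2
  have hsum : ∀ w : Fin (2 * m + 1 + 1) → K, ∑ i, w i * x i ^ 2 =
      w (lo j0) * x (lo j0) ^ 2 + w (hi j0) * x (hi j0) ^ 2 := by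
    intro w
    rw [← Finset.sum_subset (Finset.subset_univ {lo j0, hi j0}),
      Finset.sum_pair (lo_ne_hi j0 j0)]
    intro i _ hi'
    simp only [Finset.mem_insert, Finset.mem_singleton, not_or] at hi'
    rw [hzero i hi'.1 hi'.2]
    ring
  have hsum2 : ∀ w : Fin (m + 1) → K, ∑ j, w j * (x (lo j) * x (hi j)) =
      w j0 * (x (lo j0) * x (hi j0)) := by
    intro w
    apply Finset.sum_eq_single j0
    · intro j _ hj
      rw [(hother j hj).1, zero_mul, mul_zero]
    · intro h; exact absurd (Finset.mem_univ _) h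
  rw [aeval_qf, hsum, hsum2] at hF hG
  rw [map_mul] at hG
  -- elimination
  set A := algebraMap k K (a (lo j0)) with hA
  set A' := algebraMap k K (a (hi j0)) with hA'
  set B := algebraMap k K (b (lo j0)) with hB
  set B' := algebraMap k K (b (hi j0)) with hB'
  set c1 := algebraMap k K c with hc1
  set L := algebraMap k K (lam j0) with hL
  set X1 := x (lo j0) with hX1
  set Y1 := x (hi j0) with hY1
  have e1 : (L * A + B) * X1 ^ 2 + (L * A' + B') * Y1 ^ 2 = 0 := by
    linear_combination L * hF + hG - (L * c1 * X1 * Y1) * h2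
  have e2 : (A * X1 ^ 2 + A' * Y1 ^ 2) ^ 2 = c1 ^ 2 * X1 ^ 2 * Y1 ^ 2 := by
    linear_combination (A * X1 ^ 2 + A' * Y1 ^ 2 - c1 * (X1 * Y1)) * hF
  have hY0 : Y1 ≠ 0 := by
    intro h0
    rw [h0] at hF hj0
    have h3 : X1 ≠ 0 := by
      rcases hj0 with h | h
      · exact h
      · exact absurd rfl h
    have h4 : A * X1 ^ 2 = 0 := by linear_combination hF
    rcases mul_eq_zero.1 h4 with h5 | h5
    · exact ha (lo j0) (by rw [hA] at h5; simpa using h5)
    · exact h3 (pow_eq_zero_iff (two_ne_zero) |>.1 h5)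
  have e3 : ((A * B' + A' * B) ^ 2 - c1 ^ 2 * ((L * A + B) * (L * A' + B'))) * Y1 ^ 4 = 0 := by
    have e4 : (L * A + B) * X1 ^ 2 = (L * A' + B') * Y1 ^ 2 := by
      linear_combination e1 - (L * A' + B') * Y1 ^ 2 * h2
    have e5 : (A * ((L * A' + B') * Y1 ^ 2) + A' * (L * A + B) * Y1 ^ 2) ^ 2 =
        c1 ^ 2 * ((L * A + B) * ((L * A' + B') * Y1 ^ 2)) * Y1 ^ 2 := by
      rw [← e4]
      linear_combination (L * A + B) ^ 2 * e2
    linear_combination e5 - (2 * (A * A' * L) ^ 2 + 2 * A * A' * L * (A * B' + A' * B)) * Y1 ^ 4 * h2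
  rcases mul_eq_zero.1 e3 with e4 | e4
  · apply hres j0
    apply (algebraMap k K).injective
    simp only [map_mul, map_add, map_pow]
    linear_combination e4
  · exact hY0 (pow_eq_zero_iff (by norm_num) |>.1 e4)

/-- Smoothness of the intersection of two block-diagonal quadrics. -/
theorem smooth_ci {k : Type*} [Field k] [CharP k 2] (m : ℕ) (a b : Fin (2 * m + 1 + 1) → k)
    (lam : Fin (m + 1) → k) (hlam : Function.Injective lam) (c : k) (hc : c ≠ 0)
    (ha : ∀ i, a i ≠ 0)
    (hres : ∀ j, (a (lo j) * b (hi j) + a (hi j) * b (lo j)) ^ 2 ≠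
      c ^ 2 * ((lam j * a (lo j) + b (lo j)) * (lam j * a (hi j) + b (hi j)))) :
    IsSmoothCI (n := 2 * m + 1) (qf m a (fun _ => c)) (qf m b (fun j => c * lam j)) :=
  fun x hx hF hG => smooth_core m a b lam hlam c hc ha hres x hx hF hG

end Pool.Agent.Q49.CQ
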