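import Pool.Agent.Q49.CQ.A

set_option autoImplicit false

namespace Pool.Agent.Q49.CQ

theorem exists_max {T : Type*} [Field T] {N : ℕ} (O : ValuationSubring T) (x : Fin N → T)
    (hx : x ≠ 0) : ∃ i0, x i0 ≠ 0 ∧ ∀ i, x i / x i0 ∈ O := by
  have hne : Nonempty (Fin N) := by
    by_contra hcon
    rw [not_nonempty_iff] at hcon
    exact hx (funext fun i => hcon.elim i)
  obtain ⟨i0, -, hmax⟩ := Finset.exists_max_image (Finset.univ : Finset (Fin N))
    (fun i => O.valuation (x i)) Finset.univ_nonempty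
  have hx0 : x i0 ≠ 0 := by
    intro h0
    apply hx
    funext i
    have h1 := hmax i (Finset.mem_univ i)
    rw [h0, map_zero, le_zero_iff, map_eq_zero] at h1
    exact h1
  refine ⟨i0, hx0, fun i => ?_⟩
  rw [← O.valuation_le_one_iff, map_div₀]
  have hv : O.valuation (x i0) ≠ 0 := (map_ne_zero _).2 hx0
  exact (div_le_one₀ (zero_lt_iff.2 hv)).2 (hmax i (Finset.mem_univ i))

/-- The value at `x` of the member `α F + β G` of the pencil. -/
def pen {T : Type*} [Field T] {m : ℕ} (A B : Fin (2 * m + 1 + 1) → T) (L : Fin (m + 1) → T)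
    (c α β : T) (x : Fin (2 * m + 1 + 1) → T) : T :=
  ∑ i, (α * A i + β * B i) * x i ^ 2 + c * ∑ j, (α + β * L j) * (x (lo j) * x (hi j))

theorem pen_smul {T : Type*} [Field T] {m : ℕ} (A B : Fin (2 * m + 1 + 1) → T)
    (L : Fin (m + 1) → T) (c α β s : T) (x : Fin (2 * m + 1 + 1) → T) :
    pen A B L c α β (fun i => s * x i) = s ^ 2 * pen A B L c α β x := by
  unfold pen
  rw [mul_add, Finset.mul_sum, Finset.mul_sum, Finset.mul_sum, Finset.mul_sum]
  congr 1
  · exact Finset.sum_congr rfl fun i _ => by ring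
  · exact Finset.sum_congr rfl fun i _ => by ring

theorem pen_coef {T : Type*} [Field T] {m : ℕ} (A B : Fin (2 * m + 1 + 1) → T)
    (L : Fin (m + 1) → T) (c α β s : T) (x : Fin (2 * m + 1 + 1) → T) :
    pen A B L c (s * α) (s * β) x = s * pen A B L c α β x := by
  unfold pen
  rw [mul_add, Finset.mul_sum, Finset.mul_sum, Finset.mul_sum, Finset.mul_sum]
  congr 1
  · exact Finset.sum_congr rfl fun i _ => by ring
  · exact Finset.sum_congr rfl fun i _ => by ring

/-- reduction of a zero of a member of the pencil -/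
theorem pen_red {κ T l : Type*} [Field κ] [Field T] [Field l] [Algebra κ l] {m : ℕ}
    (a b : Fin (2 * m + 1 + 1) → κ) (lam : Fin (m + 1) → κ)
    (ι : κ →+* T) (c : T) (O : ValuationSubring T) (r : O →+* l)
    (hι : ∀ a : κ, ∃ h : ι a ∈ O, r ⟨ι a, h⟩ = algebraMap κ l a)
    (hc : ∃ h : c ∈ O, r ⟨c, h⟩ = 0) (α β : O) (x : Fin (2 * m + 1 + 1) → O)
    (h0 : pen (fun i => ι (a i)) (fun i => ι (b i)) (fun j => ι (lam j)) c α β
      (fun i => (x i : T)) = 0) :
    r α * ∑ i, algebraMap κ l (a i) * r (x i) ^ 2 +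
      r β * ∑ i, algebraMap κ l (b i) * r (x i) ^ 2 = 0 := by
  choose hιO hιr using hι
  obtain ⟨hcO, hcr⟩ := hc
  have hO : ∑ i, (α * (⟨ι (a i), hιO (a i)⟩ : O) + β * (⟨ι (b i), hιO (b i)⟩ : O)) * x i ^ 2 +
      (⟨c, hcO⟩ : O) * ∑ j, (α + β * (⟨ι (lam j), hιO (lam j)⟩ : O)) * (x (lo j) * x (hi j))
        = 0 := by
    apply Subtype.ext
    push_cast
    exact h0
  have hr0 := congrArg r hO
  simp only [map_add, map_sum, map_mul, map_pow, map_zero, hcr, zero_mul, add_zero, hιr] at hr0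
  rw [Finset.mul_sum, Finset.mul_sum, ← Finset.sum_add_distrib, ← hr0]
  exact Finset.sum_congr rfl fun i _ => by ring

theorem det_zero {l : Type*} [Field l] (s t P1 Q1 P2 Q2 : l) (hst : s = 1 ∨ t = 1)
    (h1 : s * P1 + t * Q1 = 0) (h2 : s * P2 + t * Q2 = 0) : P1 * Q2 - P2 * Q1 = 0 := by
  rcases hst with rfl | rfl
  · linear_combination Q2 * h1 - Q1 * h2
  · linear_combination P1 * h2 - P2 * h1

/-- No member of the pencil vanishes on a plane (of vectors). -/
theorem pencil_plane {κ T l : Type*} [Field κ] [Field T] [Field l] [Algebra κ l] [CharP l 2]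
    {m : ℕ} (a b : Fin (2 * m + 1 + 1) → κ) (lam : Fin (m + 1) → κ)
    (hab : ∀ y : Fin (2 * m + 1 + 1) → Fin (2 * m + 1 + 1) → l,
      ∑ i, ∑ j, algebraMap κ l (a i * b j) * y i j ^ 2 = 0 → ∀ i j, y i j = 0)
    (ι : κ →+* T) (c : T) (O : ValuationSubring T) (r : O →+* l)
    (hι : ∀ a : κ, ∃ h : ι a ∈ O, r ⟨ι a, h⟩ = algebraMap κ l a)
    (hc : ∃ h : c ∈ O, r ⟨c, h⟩ = 0) (α β : T) (hαβ : ¬ (α = 0 ∧ β = 0))
    (p q : Fin (2 * m + 1 + 1) → T) (j0 : Fin (2 * m + 1 + 1)) (hp0 : p j0 = 1) (hq0 : q j0 = 0)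
    (h : ∀ s t : T, pen (fun i => ι (a i)) (fun i => ι (b i)) (fun j => ι (lam j)) c α β
      (fun i => s * p i + t * q i) = 0) : q = 0 := by
  classical
  by_contra hq
  -- the coefficients
  obtain ⟨γ, hγ, hα, hβ, hγ1⟩ : ∃ γ : T, γ ≠ 0 ∧ α / γ ∈ O ∧ β / γ ∈ O ∧
      (α / γ = 1 ∨ β / γ = 1) := by
    have hne : (![α, β] : Fin 2 → T) ≠ 0 := by
      intro h0
      exact hαβ ⟨by simpa using congrFun h0 0, by simpa using congrFun h0 1⟩
    obtain ⟨i0, hi0, hi⟩ := exists_max O ![α, β] hne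
    refine ⟨![α, β] i0, hi0, by simpa using hi 0, by simpa using hi 1, ?_⟩
    fin_cases i0
    · exact Or.inl (div_self hi0)
    · exact Or.inr (div_self hi0)
  -- the first vector
  have hp : p ≠ 0 := by
    intro h0
    rw [h0] at hp0
    exact zero_ne_one hp0
  obtain ⟨i0, hpi0, hpO⟩ := exists_max O p hp
  set w1 : Fin (2 * m + 1 + 1) → T := fun i => p i / p i0 with hw1
  set q' : Fin (2 * m + 1 + 1) → T := fun i => q i - q i0 * w1 i with hq'
  have hq'0 : q' ≠ 0 := by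
    intro h0
    have h1 := congrFun h0 j0
    simp only [hq', hw1, hq0, hp0, Pi.zero_apply, zero_sub, neg_eq_zero, mul_eq_zero,
      div_eq_zero_iff, one_ne_zero, false_or] at h1
    have h2 : q i0 = 0 := by
      rcases h1 with h1 | h1
      · exact h1
      · exact absurd h1 hpi0
    apply hq
    funext i
    have h3 := congrFun h0 i
    simpa [hq', h2] using h3
  obtain ⟨i1, hqi1, hqO⟩ := exists_max O q' hq'0
  set w2 : Fin (2 * m + 1 + 1) → T := fun i => q' i / q' i1 with hw2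
  have hw1i0 : w1 i0 = 1 := div_self hpi0
  have hw2i1 : w2 i1 = 1 := div_self hqi1
  have hw2i0 : w2 i0 = 0 := by
    simp only [hw2, hq', hw1i0, mul_one, sub_self, zero_div]
  have hpen : ∀ s t : T, pen (fun i => ι (a i)) (fun i => ι (b i)) (fun j => ι (lam j)) c
      (α / γ) (β / γ) (fun i => s * p i + t * q i) = 0 := by
    intro s t
    have h1 := pen_coef (fun i => ι (a i)) (fun i => ι (b i)) (fun j => ι (lam j)) c α β γ⁻¹
      (fun i => s * p i + t * q i)
    rw [h s t, mul_zero] at h1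
    rw [div_eq_inv_mul, div_eq_inv_mul]
    exact h1
  have h1 : pen (fun i => ι (a i)) (fun i => ι (b i)) (fun j => ι (lam j)) c
      (α / γ) (β / γ) w1 = 0 := by
    have e : w1 = fun i => (p i0)⁻¹ * p i + 0 * q i := by
      funext i
      simp only [hw1, zero_mul, add_zero, div_eq_inv_mul]
    rw [e]
    exact hpen _ _
  have h2 : pen (fun i => ι (a i)) (fun i => ι (b i)) (fun j => ι (lam j)) c
      (α / γ) (β / γ) w2 = 0 := by
    have e : w2 = fun i => (-(q' i1)⁻¹ * q i0 * (p i0)⁻¹) * p i + (q' i1)⁻¹ * q i := by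
      funext i
      simp only [hw2, hq', hw1, div_eq_mul_inv]
      ring
    rw [e]
    exact hpen _ _
  have r1 := pen_red a b lam ι c O r hι hc ⟨α / γ, hα⟩ ⟨β / γ, hβ⟩ (fun i => ⟨w1 i, hpO i⟩) h1
  have r2 := pen_red a b lam ι c O r hι hc ⟨α / γ, hα⟩ ⟨β / γ, hβ⟩ (fun i => ⟨w2 i, hqO i⟩) h2
  have hst : r ⟨α / γ, hα⟩ = 1 ∨ r ⟨β / γ, hβ⟩ = 1 := by
    rcases hγ1 with h3 | h3
    · left
      have : (⟨α / γ, hα⟩ : O) = 1 := Subtype.ext h3
      rw [this, map_one]
    · right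
      have : (⟨β / γ, hβ⟩ : O) = 1 := Subtype.ext h3
      rw [this, map_one]
  have hdet := det_zero _ _ _ _ _ _ hst r1 r2
  set z1 : Fin (2 * m + 1 + 1) → l := fun i => r ⟨w1 i, hpO i⟩ with hz1
  set z2 : Fin (2 * m + 1 + 1) → l := fun i => r ⟨w2 i, hqO i⟩ with hz2
  have htwo : (2 : l) = 0 := by
    have := CharP.cast_eq_zero l 2
    simpa using this
  have hy := hab (fun i j => z1 i * z2 j - z2 i * z1 j) (by
    have e : ∀ i j, algebraMap κ l (a i * b j) * (z1 i * z2 j - z2 i * z1 j) ^ 2 =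
        (algebraMap κ l (a i) * z1 i ^ 2) * (algebraMap κ l (b j) * z2 j ^ 2) -
        (algebraMap κ l (a i) * z2 i ^ 2) * (algebraMap κ l (b j) * z1 j ^ 2) := by
      intro i j
      rw [map_mul]
      linear_combination (algebraMap κ l (a i) * algebraMap κ l (b j) *
        (z2 i ^ 2 * z1 j ^ 2 - z1 i * z2 j * z2 i * z1 j)) * htwo
    rw [Finset.sum_congr rfl fun i _ => Finset.sum_congr rfl fun j _ => e i j]
    simp only [Finset.sum_sub_distrib]
    rw [← Finset.sum_mul_sum, ← Finset.sum_mul_sum]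
    exact hdet)
  have h3 := hy i0 i1
  have e1 : z1 i0 = 1 := by
    have : (⟨w1 i0, hpO i0⟩ : O) = 1 := Subtype.ext hw1i0
    rw [hz1]
    show r ⟨w1 i0, hpO i0⟩ = 1
    rw [this, map_one]
  have e2 : z2 i1 = 1 := by
    have : (⟨w2 i1, hqO i1⟩ : O) = 1 := Subtype.ext hw2i1
    rw [hz2]
    show r ⟨w2 i1, hqO i1⟩ = 1
    rw [this, map_one]
  have e3 : z2 i0 = 0 := by
    have : (⟨w2 i0, hqO i0⟩ : O) = 0 := Subtype.ext hw2i0
    rw [hz2]
    show r ⟨w2 i0, hqO i0⟩ = 0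
    rw [this, map_zero]
  rw [e1, e2, e3] at h3
  simp at h3

/-- A member of the pencil at a rational point: `F` alone has no zero. -/
theorem aniso_first {κ T l : Type*} [Field κ] [Field T] [Field l] [Algebra κ l]
    {m : ℕ} (a b : Fin (2 * m + 1 + 1) → κ) (lam : Fin (m + 1) → κ)
    (ha : ∀ y : Fin (2 * m + 1 + 1) → l, ∑ i, algebraMap κ l (a i) * y i ^ 2 = 0 → y = 0)
    (ι : κ →+* T) (c : T) (O : ValuationSubring T) (r : O →+* l)
    (hι : ∀ a : κ, ∃ h : ι a ∈ O, r ⟨ι a, h⟩ = algebraMap κ l a)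
    (hc : ∃ h : c ∈ O, r ⟨c, h⟩ = 0)
    (p : Fin (2 * m + 1 + 1) → T) (hp : p ≠ 0)
    (h : pen (fun i => ι (a i)) (fun i => ι (b i)) (fun j => ι (lam j)) c 1 0 p = 0) :
    False := by
  obtain ⟨i0, hpi0, hpO⟩ := exists_max O p hp
  have h1 := pen_smul (fun i => ι (a i)) (fun i => ι (b i)) (fun j => ι (lam j)) c 1 0
    (p i0)⁻¹ p
  rw [h, mul_zero] at h1
  have h2 := pen_red a b lam ι c O r hι hc 1 0 (fun i => ⟨p i / p i0, hpO i⟩) (by
    simpa only [div_eq_inv_mul, OneMemClass.coe_one, ZeroMemClass.coe_zero] using h1)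
  rw [map_one, map_zero, one_mul, zero_mul, add_zero] at h2
  have h3 := congrFun (ha _ h2) i0
  have h4 : (⟨p i0 / p i0, hpO i0⟩ : O) = 1 := Subtype.ext (div_self hpi0)
  simp only [h4, map_one, Pi.zero_apply] at h3
  exact one_ne_zero h3

end Pool.Agent.Q49.CQ
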