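import Pool.Agent.Y233.Cd.C
import Pool.Agent.Q49.CQ.B

set_option autoImplicit false

open MvPolynomial Pool.Agent.Helper346.Cd

namespace Pool.Agent.Q49.CQ

/-- The products `Xᵢ X_(N+j)` are linearly independent over the squares. -/
theorem indep_pair (k₀ : Type*) [Field k₀] [CharP k₀ 2] (N : ℕ)
    (y : Fin N → Fin N → FractionRing (MvPolynomial ℕ k₀))
    (hy : ∑ i : Fin N, ∑ j : Fin N, algebraMap (MvPolynomial ℕ k₀) _ (X (i : ℕ) * X (N + (j : ℕ))) *
      y i j ^ 2 = 0) : ∀ i j, y i j = 0 := by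
  classical
  obtain ⟨b, hb⟩ := IsLocalization.exist_integer_multiples_of_finite
    (nonZeroDivisors (MvPolynomial ℕ k₀)) (fun t : Fin N × Fin N => y t.1 t.2)
  choose w hw using hb
  have hb0 : (b : MvPolynomial ℕ k₀) ≠ 0 := nonZeroDivisors.coe_ne_zero b
  have hinj := IsFractionRing.injective (MvPolynomial ℕ k₀)
    (FractionRing (MvPolynomial ℕ k₀))
  have hw' : ∀ i j, algebraMap (MvPolynomial ℕ k₀) (FractionRing (MvPolynomial ℕ k₀)) (w (i, j))
      = algebraMap _ _ (b : MvPolynomial ℕ k₀) * y i j := by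
    intro i j
    rw [hw (i, j), Algebra.smul_def]
  have h1 : ∑ i : Fin N, ∑ j : Fin N, X (i : ℕ) * X (N + (j : ℕ)) * w (i, j) ^ 2 =
      (0 : MvPolynomial ℕ k₀) := by
    apply hinj
    simp only [map_sum, map_zero]
    have e : ∀ i j : Fin N, algebraMap (MvPolynomial ℕ k₀)
        (FractionRing (MvPolynomial ℕ k₀)) (X (i : ℕ) * X (N + (j : ℕ)) * w (i, j) ^ 2) =
        algebraMap _ _ (b : MvPolynomial ℕ k₀) ^ 2 *
          (algebraMap (MvPolynomial ℕ k₀) _ (X (i : ℕ) * X (N + (j : ℕ))) * y i j ^ 2) := by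
      intro i j
      rw [map_mul, map_pow, hw' i j]; ring
    rw [Finset.sum_congr rfl (fun i _ => Finset.sum_congr rfl (fun j _ => e i j))]
    simp only [← Finset.mul_sum]
    rw [hy, mul_zero]
  have h2 : (2 : MvPolynomial ℕ k₀) = 0 := by
    have := CharP.cast_eq_zero (MvPolynomial ℕ k₀) 2
    simpa using this
  have hsq : ∀ (n : ℕ) (f g : MvPolynomial ℕ k₀), pderiv n (f * g ^ 2) = pderiv n f * g ^ 2 := by
    intro n f g
    rw [Derivation.leibniz, Derivation.leibniz_pow]
    simp only [smul_eq_mul, nsmul_eq_mul, Nat.cast_ofNat, h2, zero_mul, mul_zero, zero_add]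
    ring
  have hX : ∀ n n' : ℕ, pderiv n (X n' : MvPolynomial ℕ k₀) = if n' = n then 1 else 0 := by
    intro n n'
    rw [pderiv_X]
    by_cases h : n' = n
    · rw [h, Pi.single_eq_same, if_pos rfl]
    · rw [Pi.single_eq_of_ne h, if_neg h]
  have hwz : ∀ i j : Fin N, w (i, j) = 0 := by
    intro i0 j0
    have h4 := congrArg (pderiv (N + (j0 : ℕ))) h1
    simp only [map_sum, map_zero] at h4
    have e : ∀ i j : Fin N, pderiv (N + (j0 : ℕ))
        (X (i : ℕ) * X (N + (j : ℕ)) * w (i, j) ^ 2 : MvPolynomial ℕ k₀) =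
        if j = j0 then X (i : ℕ) * w (i, j) ^ 2 else 0 := by
      intro i j
      rw [hsq, Derivation.leibniz, hX, hX, if_neg (show ¬ (i : ℕ) = N + (j0 : ℕ) by omega)]
      by_cases hj : j = j0
      · rw [if_pos (by rw [hj]), if_pos hj]
        simp only [smul_eq_mul]
        ring
      · rw [if_neg (fun h => hj (Fin.ext (by omega))), if_neg hj]
        simp
    rw [Finset.sum_congr rfl (fun i _ => Finset.sum_congr rfl (fun j _ => e i j))] at h4
    simp only [Finset.sum_ite_eq', Finset.mem_univ, if_true] at h4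
    have h5 := congrArg (pderiv (i0 : ℕ)) h4
    simp only [map_sum, map_zero] at h5
    have e2 : ∀ i : Fin N, pderiv (i0 : ℕ) (X (i : ℕ) * w (i, j0) ^ 2 : MvPolynomial ℕ k₀) =
        if i = i0 then w (i, j0) ^ 2 else 0 := by
      intro i
      rw [hsq, hX]
      by_cases hi : i = i0
      · rw [if_pos (by rw [hi]), if_pos hi, one_mul]
      · rw [if_neg (fun h => hi (Fin.ext h)), if_neg hi, zero_mul]
    rw [Finset.sum_congr rfl (fun i _ => e2 i)] at h5
    simp only [Finset.sum_ite_eq', Finset.mem_univ, if_true] at h5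
    exact pow_eq_zero_iff two_ne_zero |>.mp h5
  intro i j
  have h5 := hw' i j
  rw [hwz i j, map_zero] at h5
  have hb1 : algebraMap (MvPolynomial ℕ k₀) (FractionRing (MvPolynomial ℕ k₀))
      (b : MvPolynomial ℕ k₀) ≠ 0 := by
    intro h6
    apply hb0
    apply hinj
    rw [h6, map_zero]
  rcases mul_eq_zero.mp h5.symm with h6 | h6
  · exact absurd h6 hb1
  · exact h6

/-- Independence over squares passes to finite extensions of odd degree. -/
theorem indep_odd {κ l : Type*} [Field κ] [Field l] [CharP κ 2] [Algebra κ l]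
    [FiniteDimensional κ l] (hl : ¬ 2 ∣ Module.finrank κ l) {N : ℕ} (a b : Fin N → κ)
    (hab : ∀ y : Fin N → Fin N → κ, ∑ i, ∑ j, a i * b j * y i j ^ 2 = 0 → ∀ i j, y i j = 0)
    (y : Fin N → Fin N → l) (hy : ∑ i, ∑ j, algebraMap κ l (a i * b j) * y i j ^ 2 = 0) :
    ∀ i j, y i j = 0 := by
  have hN : ∀ (f : Fin N × Fin N → κ),
      ∑ t : Fin (N * N), f (finProdFinEquiv.symm t) = ∑ i, ∑ j, f (i, j) := by
    intro f
    rw [Equiv.sum_comp finProdFinEquiv.symm f, Fintype.sum_prod_type]
  have hN' : ∀ (f : Fin N × Fin N → l),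
      ∑ t : Fin (N * N), f (finProdFinEquiv.symm t) = ∑ i, ∑ j, f (i, j) := by
    intro f
    rw [Equiv.sum_comp finProdFinEquiv.symm f, Fintype.sum_prod_type]
  have h0 := Pool.Agent.Y233.Cd.aniso_res (p := 2) (κ := κ) (l := l)
    (fun t : Fin (N * N) => a (finProdFinEquiv.symm t).1 * b (finProdFinEquiv.symm t).2) (by
      intro z hz
      have e1 := hN (fun t : Fin N × Fin N => a t.1 * b t.2 * z (finProdFinEquiv t) ^ 2)
      have h1 := hab (fun i j => z (finProdFinEquiv (i, j))) (by
        rw [← e1, ← hz]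
        exact Finset.sum_congr rfl fun t _ => by rw [Equiv.apply_symm_apply])
      funext t
      have h2 := h1 (finProdFinEquiv.symm t).1 (finProdFinEquiv.symm t).2
      rw [Prod.mk.eta, Equiv.apply_symm_apply] at h2
      exact h2) 1 0 2 (by norm_num) (by norm_num) (by norm_num) (by simpa using hl)
    (fun t => y (finProdFinEquiv.symm t).1 (finProdFinEquiv.symm t).2) (by
      have e1 := hN' (fun t : Fin N × Fin N => algebraMap κ l (a t.1 * b t.2) * y t.1 t.2 ^ 2)
      rw [← hy, ← e1]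
      exact Finset.sum_congr rfl fun t _ => by rw [pow_zero, pow_one])
  intro i j
  have h1 := congrFun h0 (finProdFinEquiv (i, j))
  simp only [Equiv.symm_apply_apply, Pi.zero_apply] at h1
  exact h1

/-- If the products `aᵢ bⱼ` are independent over the squares, so are the `aᵢ`. -/
theorem indep_left {l : Type*} [Field l] {N : ℕ} (a b : Fin N → l) (hN : Nonempty (Fin N))
    (hab : ∀ y : Fin N → Fin N → l, ∑ i, ∑ j, a i * b j * y i j ^ 2 = 0 → ∀ i j, y i j = 0)
    (z : Fin N → l) (hz : ∑ i, a i * z i ^ 2 = 0) : z = 0 := by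
  classical
  obtain ⟨j0⟩ := hN
  funext i
  have h1 := hab (fun i j => if j = j0 then z i else 0) (by
    have e : ∀ i j, a i * b j * (if j = j0 then z i else 0) ^ 2 =
        if j = j0 then b j0 * (a i * z i ^ 2) else 0 := by
      intro i j
      split_ifs with h
      · rw [h]; ring
      · ring
    rw [Finset.sum_congr rfl (fun i _ => Finset.sum_congr rfl (fun j _ => e i j))]
    simp only [Finset.sum_ite_eq', Finset.mem_univ, if_true]
    rw [← Finset.mul_sum, hz, mul_zero]) i j0
  simpa using h1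

end Pool.Agent.Q49.CQ
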