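import Pool.Agent.Y233.Cd.B
import Pool.Agent.Y233.Cd.G
import Pool.Agent.Q49.CQ.C

set_option autoImplicit false

open MvPolynomial Pool.Agent.Helper346.Cd

namespace Pool.Agent.Q49.CQ

/-- The polar form of the member `α F + β G` of the pencil. -/
def pol {T : Type*} [Field T] {m : ℕ} (A B : Fin (2 * m + 1 + 1) → T) (L : Fin (m + 1) → T)
    (c α β : T) (x y : Fin (2 * m + 1 + 1) → T) : T :=
  ∑ i, (α * A i + β * B i) * (2 * (x i * y i)) +
    c * ∑ j, (α + β * L j) * (x (lo j) * y (hi j) + y (lo j) * x (hi j))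

theorem pen_comb {T : Type*} [Field T] {m : ℕ} (A B : Fin (2 * m + 1 + 1) → T)
    (L : Fin (m + 1) → T) (c α β s t : T) (x y : Fin (2 * m + 1 + 1) → T) :
    pen A B L c α β (fun i => s * x i + t * y i) =
      s ^ 2 * pen A B L c α β x + s * t * pol A B L c α β x y + t ^ 2 * pen A B L c α β y := by
  unfold pen pol
  have e1 : ∀ i, (α * A i + β * B i) * (s * x i + t * y i) ^ 2 =
      s ^ 2 * ((α * A i + β * B i) * x i ^ 2) +
      s * t * ((α * A i + β * B i) * (2 * (x i * y i))) +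
      t ^ 2 * ((α * A i + β * B i) * y i ^ 2) := fun i => by ring
  have e2 : ∀ j, (α + β * L j) * ((s * x (lo j) + t * y (lo j)) * (s * x (hi j) + t * y (hi j))) =
      s ^ 2 * ((α + β * L j) * (x (lo j) * x (hi j))) +
      s * t * ((α + β * L j) * (x (lo j) * y (hi j) + y (lo j) * x (hi j))) +
      t ^ 2 * ((α + β * L j) * (y (lo j) * y (hi j))) := fun j => by ring
  rw [Finset.sum_congr rfl fun i _ => e1 i, Finset.sum_congr rfl fun j _ => e2 j]
  simp only [Finset.sum_add_distrib, ← Finset.mul_sum]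
  ring

theorem pen_lin {T : Type*} [Field T] {m : ℕ} (A B : Fin (2 * m + 1 + 1) → T)
    (L : Fin (m + 1) → T) (c α β : T) (x : Fin (2 * m + 1 + 1) → T) :
    pen A B L c α β x = α * pen A B L c 1 0 x + β * pen A B L c 0 1 x := by
  unfold pen
  have e1 : ∀ i, (α * A i + β * B i) * x i ^ 2 =
      α * ((1 * A i + 0 * B i) * x i ^ 2) + β * ((0 * A i + 1 * B i) * x i ^ 2) :=
    fun i => by ring
  have e2 : ∀ j, (α + β * L j) * (x (lo j) * x (hi j)) =
      α * ((1 + 0 * L j) * (x (lo j) * x (hi j))) + β * ((0 + 1 * L j) * (x (lo j) * x (hi j))) :=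
    fun j => by ring
  rw [Finset.sum_congr rfl fun i _ => e1 i, Finset.sum_congr rfl fun j _ => e2 j]
  simp only [Finset.sum_add_distrib, ← Finset.mul_sum]
  ring

theorem pen_map {T T' : Type*} [Field T] [Field T'] (φ : T →+* T') {m : ℕ}
    (A B : Fin (2 * m + 1 + 1) → T) (L : Fin (m + 1) → T) (c α β : T)
    (x : Fin (2 * m + 1 + 1) → T) :
    pen (fun i => φ (A i)) (fun i => φ (B i)) (fun j => φ (L j)) (φ c) (φ α) (φ β)
      (fun i => φ (x i)) = φ (pen A B L c α β x) := by
  unfold pen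
  simp only [map_add, map_mul, map_sum, map_pow]

theorem pol_map {T T' : Type*} [Field T] [Field T'] (φ : T →+* T') {m : ℕ}
    (A B : Fin (2 * m + 1 + 1) → T) (L : Fin (m + 1) → T) (c α β : T)
    (x y : Fin (2 * m + 1 + 1) → T) :
    pol (fun i => φ (A i)) (fun i => φ (B i)) (fun j => φ (L j)) (φ c) (φ α) (φ β)
      (fun i => φ (x i)) (fun i => φ (y i)) = φ (pol A B L c α β x y) := by
  unfold pol
  simp only [map_add, map_mul, map_sum, map_ofNat]

/-- the residue field: independence of the products over it -/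
theorem indep_res {κ l : Type} [Field κ] [Field l] [CharP κ 2] [Algebra κ l]
    [FiniteDimensional κ l] (hl : ¬ 2 ∣ Module.finrank κ l) {m : ℕ}
    (a b : Fin (2 * m + 1 + 1) → κ)
    (hab : ∀ y : Fin (2 * m + 1 + 1) → Fin (2 * m + 1 + 1) → κ,
      ∑ i, ∑ j, a i * b j * y i j ^ 2 = 0 → ∀ i j, y i j = 0) :
    ∀ y : Fin (2 * m + 1 + 1) → l, ∑ i, algebraMap κ l (a i) * y i ^ 2 = 0 → y = 0 :=
  indep_left (fun i => algebraMap κ l (a i)) (fun i => algebraMap κ l (b i)) ⟨0⟩ (by
    intro y hy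
    apply indep_odd hl a b hab
    simpa only [map_mul] using hy)

section
variable {κ K E : Type} [Field κ] [CharP κ 2] [Field K] [Algebra (Polynomial κ) K]
  [IsFractionRing (Polynomial κ) K] [Field E] [Algebra K E] [Algebra.IsSeparable K E]
  (hE : ∀ T : IntermediateField K E, FiniteDimensional K T → ¬ 2 ∣ Module.finrank K T)
  {m : ℕ} (a b : Fin (2 * m + 1 + 1) → κ) (lam : Fin (m + 1) → κ)
  (hab : ∀ y : Fin (2 * m + 1 + 1) → Fin (2 * m + 1 + 1) → κ,
      ∑ i, ∑ j, a i * b j * y i j ^ 2 = 0 → ∀ i j, y i j = 0)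

include hE hab

theorem plane_E (ι : κ →+* E)
    (hι : ∀ u, ι u = algebraMap K E (algebraMap (Polynomial κ) K (Polynomial.C u)))
    (c : E) (hc : c = algebraMap K E (algebraMap (Polynomial κ) K Polynomial.X))
    (α β : E) (hαβ : ¬ (α = 0 ∧ β = 0))
    (p q : Fin (2 * m + 1 + 1) → E) (j0 : Fin (2 * m + 1 + 1)) (hp0 : p j0 = 1) (hq0 : q j0 = 0)
    (h : ∀ s t : E, pen (fun i => ι (a i)) (fun i => ι (b i)) (fun j => ι (lam j)) c α β
      (fun i => s * p i + t * q i) = 0) : q = 0 := by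
  have : Algebra.IsIntegral K E := inferInstance
  obtain ⟨T, hTfd, hTdeg, hTy⟩ := Pool.Agent.Y233.Cd.descent (p := 2) (K := K) (E := E) (M := E)
    hE 1 (by simp) (Fin.append (Fin.append p q) ![α, β])
  have hp : ∀ i, p i ∈ T := fun i => by
    have := hTy (Fin.castAdd 2 (Fin.castAdd _ i))
    rwa [Fin.append_left, Fin.append_left] at this
  have hq : ∀ i, q i ∈ T := fun i => by
    have := hTy (Fin.castAdd 2 (Fin.natAdd _ i))
    rwa [Fin.append_left, Fin.append_right] at this
  have hα : α ∈ T := by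
    have := hTy (Fin.natAdd _ 0)
    rwa [Fin.append_right] at this
  have hβ : β ∈ T := by
    have := hTy (Fin.natAdd _ 1)
    rwa [Fin.append_right] at this
  have hTsep : Algebra.IsSeparable K T := Algebra.isSeparable_tower_bot_of_isSeparable K T E
  let ι' : κ →+* T := (algebraMap K T).comp ((algebraMap (Polynomial κ) K).comp Polynomial.C)
  let c' : T := algebraMap K T (algebraMap (Polynomial κ) K Polynomial.X)
  obtain ⟨O, l, _, _, r, ⟨hlfd, hldeg⟩, -, hι', hc'⟩ :=
    Pool.Agent.Y233.Cd.exists_good_place_of (κ := κ) (E := T) K (2 ^ 1) hTdeg ι' c'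
      (fun a => rfl) rfl
  have : CharP l 2 := charP_of_injective_algebraMap (algebraMap κ l).injective 2
  have hιι : ∀ u, ι u = ((ι' u : T) : E) := fun u => by rw [hι]; rfl
  have hcc : c = ((c' : T) : E) := by rw [hc]; rfl
  have hkey := pencil_plane a b lam
    (indep_odd (by simpa using hldeg) a b hab) ι' c' O r hι' hc' ⟨α, hα⟩ ⟨β, hβ⟩
    (fun h0 => hαβ ⟨congrArg Subtype.val h0.1, congrArg Subtype.val h0.2⟩)
    (fun i => ⟨p i, hp i⟩) (fun i => ⟨q i, hq i⟩) j0 (Subtype.ext hp0) (Subtype.ext hq0) (by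
      intro s t
      have h1 := h (s : E) (t : E)
      have h2 := pen_map (T := T) (T' := E) (algebraMap T E) (fun i => ι' (a i))
        (fun i => ι' (b i)) (fun j => ι' (lam j)) c' ⟨α, hα⟩ ⟨β, hβ⟩
        (fun i => s * ⟨p i, hp i⟩ + t * ⟨q i, hq i⟩)
      simp only [hιι, hcc] at h1
      apply (algebraMap T E).injective
      rw [map_zero, ← h2]
      simpa using h1)
  funext i
  exact congrArg Subtype.val (congrFun hkey i)

theorem point_E (ι : κ →+* E)
    (hι : ∀ u, ι u = algebraMap K E (algebraMap (Polynomial κ) K (Polynomial.C u)))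
    (c : E) (hc : c = algebraMap K E (algebraMap (Polynomial κ) K Polynomial.X))
    (p : Fin (2 * m + 1 + 1) → E) (hp0 : p ≠ 0)
    (h : pen (fun i => ι (a i)) (fun i => ι (b i)) (fun j => ι (lam j)) c 1 0 p = 0) : False := by
  have : Algebra.IsIntegral K E := inferInstance
  obtain ⟨T, hTfd, hTdeg, hp⟩ := Pool.Agent.Y233.Cd.descent (p := 2) (K := K) (E := E) (M := E)
    hE 1 (by simp) p
  have hTsep : Algebra.IsSeparable K T := Algebra.isSeparable_tower_bot_of_isSeparable K T E
  let ι' : κ →+* T := (algebraMap K T).comp ((algebraMap (Polynomial κ) K).comp Polynomial.C)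
  let c' : T := algebraMap K T (algebraMap (Polynomial κ) K Polynomial.X)
  obtain ⟨O, l, _, _, r, ⟨hlfd, hldeg⟩, -, hι', hc'⟩ :=
    Pool.Agent.Y233.Cd.exists_good_place_of (κ := κ) (E := T) K (2 ^ 1) hTdeg ι' c'
      (fun a => rfl) rfl
  have : CharP l 2 := charP_of_injective_algebraMap (algebraMap κ l).injective 2
  have hιι : ∀ u, ι u = ((ι' u : T) : E) := fun u => by rw [hι]; rfl
  have hcc : c = ((c' : T) : E) := by rw [hc]; rfl
  refine aniso_first a b lam (indep_res (by simpa using hldeg) a b hab) ι' c' O r hι' hc'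
    (fun i => ⟨p i, hp i⟩) (fun h0 => hp0 (funext fun i => congrArg Subtype.val (congrFun h0 i))) ?_
  have h2 := pen_map (T := T) (T' := E) (algebraMap T E) (fun i => ι' (a i))
        (fun i => ι' (b i)) (fun j => ι' (lam j)) c' 1 0 (fun i => ⟨p i, hp i⟩)
  simp only [hιι, hcc] at h
  apply (algebraMap T E).injective
  rw [map_zero, ← h2]
  simpa using h

end

end Pool.Agent.Q49.CQ
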