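import Pool.Agent.Helper346.Cd.Defs

/-!
# Two quadrics over fields of cohomological dimension one: definitions

Definitions used in the results on smooth complete intersections of two quadrics over a field of
cohomological dimension one.  The cohomology of a profinite group, the condition `CdLeOne` and the
residue field `pointField k x` of a closed point of `ℙⁿ` are those of
`Pool.Agent.Helper346.Cd.Defs`.
-/

set_option autoImplicit false

open MvPolynomial Pool.Agent.Helper346.Cd

namespace Pool.Agent.Q49.CQ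

/-- The topological group `G` has cohomological dimension exactly one: `H^q(G, M) = 0` for all
`q ≥ 2` and all discrete torsion `G`-modules `M`, and `H¹(G, M) ≠ 0` for some such `M`. -/
def CdEqOne (G : Type) [Group G] [TopologicalSpace G] : Prop :=
  CdLeOne G ∧ ∃ (M : Type) (_ : AddCommGroup M) (_ : DistribMulAction G M),
    IsDiscreteModule G M ∧ (∀ m : M, IsOfFinAddOrder m) ∧ ¬ HSuccVanishes G M 0

/-- The closed subscheme `F = G = 0` of `ℙⁿ` over `k` is a smooth complete intersection (Jacobian
criterion): at every geometric point of it the gradients of `F` and `G` are linearly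
independent. -/
def IsSmoothCI {k : Type*} [Field k] {n : ℕ} (F G : MvPolynomial (Fin (n + 1)) k) : Prop :=
  ∀ x : Fin (n + 1) → AlgebraicClosure k, x ≠ 0 → aeval x F = 0 → aeval x G = 0 →
    LinearIndependent (AlgebraicClosure k)
      ![fun i => aeval x (pderiv i F), fun i => aeval x (pderiv i G)]

/-- The set of the degrees `[k(P) : k]` of the closed points `P` of `F = G = 0` in `ℙⁿ`. -/
def ciPointDegrees {k : Type*} [Field k] {n : ℕ} (F G : MvPolynomial (Fin (n + 1)) k) : Set ℕ :=
  {d | ∃ x : Fin (n + 1) → AlgebraicClosure k, x ≠ 0 ∧ aeval x F = 0 ∧ aeval x G = 0 ∧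
    d = Module.finrank k (pointField k x)}

/-- `m` is the index of `F = G = 0`: the greatest common divisor of the degrees of its closed
points. -/
def IsCIIndex {k : Type*} [Field k] {n : ℕ} (F G : MvPolynomial (Fin (n + 1)) k) (m : ℕ) : Prop :=
  (∀ d ∈ ciPointDegrees F G, m ∣ d) ∧ ∀ m' : ℕ, (∀ d ∈ ciPointDegrees F G, m' ∣ d) → m' ∣ m

/-- `F = G = 0` has a `k`-rational point. -/
def HasCIPoint {k : Type*} [Field k] {n : ℕ} (F G : MvPolynomial (Fin (n + 1)) k) : Prop :=
  ∃ x : Fin (n + 1) → k, x ≠ 0 ∧ eval x F = 0 ∧ eval x G = 0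

/-- The even index `2 j`. -/
def lo {m : ℕ} (j : Fin (m + 1)) : Fin (2 * m + 1 + 1) := ⟨2 * j, by omega⟩

/-- The odd index `2 j + 1`. -/
def hi {m : ℕ} (j : Fin (m + 1)) : Fin (2 * m + 1 + 1) := ⟨2 * j + 1, by omega⟩

/-- The quadratic form `∑ᵢ aᵢ xᵢ² + ∑ⱼ eⱼ x_(2j) x_(2j+1)` in `2 m + 2` variables. -/
noncomputable def qf {k : Type*} [Field k] (m : ℕ) (a : Fin (2 * m + 1 + 1) → k)
    (e : Fin (m + 1) → k) : MvPolynomial (Fin (2 * m + 1 + 1)) k :=
  ∑ i, C (a i) * X i ^ 2 + ∑ j, C (e j) * (X (lo j) * X (hi j))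

end Pool.Agent.Q49.CQ
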