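import Pool.Agent.Helper346.Cd.CR
import Pool.Agent.Q49.CQ.D

set_option autoImplicit false

open MvPolynomial Pool.Agent.Helper346.Cd

namespace Pool.Agent.Q49.CQ

theorem finrank_two_pow {E : Type*} [Field E] [CharP E 2]
    (hirr : ∀ f : Polynomial E, Irreducible f → ∃ t, f.natDegree = 2 ^ t)
    (L : Type*) [Field L] [Algebra E L] [FiniteDimensional E L] :
    ∃ t, Module.finrank E L = 2 ^ t := by
  have : Fact (Nat.Prime 2) := ⟨Nat.prime_two⟩
  have : CharP (separableClosure E L) 2 :=
    charP_of_injective_algebraMap (algebraMap E (separableClosure E L)).injective 2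
  have : ExpChar (separableClosure E L) 2 := ExpChar.prime Nat.prime_two
  obtain ⟨i, hi⟩ := IsPurelyInseparable.finrank_eq_pow (separableClosure E L) L 2
  have h1 := Module.finrank_mul_finrank E (separableClosure E L) L
  obtain ⟨α, hα⟩ := Field.exists_primitive_element E (separableClosure E L)
  have hαi : IsIntegral E α := Algebra.IsIntegral.isIntegral α
  have h2 := IntermediateField.adjoin.finrank hαi
  rw [hα, IntermediateField.finrank_top'] at h2
  obtain ⟨t, ht⟩ := hirr _ (minpoly.irreducible hαi)
  exact ⟨t + i, by rw [← h1, h2, ht, hi, pow_add]⟩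

theorem quad_basis {E L : Type*} [Field E] [Field L] [Algebra E L]
    (h2 : Module.finrank E L = 2) : ∃ θ : L, (∀ u : L, ∃ p q : E,
      u = algebraMap E L p + algebraMap E L q * θ) ∧
      ∀ p q : E, algebraMap E L p + algebraMap E L q * θ = 0 → p = 0 ∧ q = 0 := by
  have hfd : FiniteDimensional E L := FiniteDimensional.of_finrank_pos (by rw [h2]; norm_num)
  obtain ⟨θ, hθ⟩ : ∃ θ : L, θ ∉ (⊥ : Subalgebra E L) := by
    by_contra hcon
    push Not at hcon
    have h3 : (⊥ : Subalgebra E L) = ⊤ := by
      rw [eq_top_iff]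
      exact fun x _ => hcon x
    have h4 := Subalgebra.bot_eq_top_iff_finrank_eq_one.1 h3
    rw [h2] at h4
    norm_num at h4
  have hli : LinearIndependent E ![(1 : L), θ] := by
    rw [LinearIndependent.pair_iff]
    intro s t hst
    by_cases ht : t = 0
    · rw [ht, zero_smul, add_zero, Algebra.smul_def, mul_one, map_eq_zero] at hst
      exact ⟨hst, ht⟩
    · exfalso
      apply hθ
      rw [Algebra.mem_bot]
      refine ⟨-(t⁻¹ * s), ?_⟩
      rw [Algebra.smul_def, Algebra.smul_def, mul_one] at hst
      have ht' : algebraMap E L t ≠ 0 := by simpa using ht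
      apply mul_left_cancel₀ ht'
      rw [map_neg, map_mul, map_inv₀]
      field_simp
      linear_combination -hst
  let b := basisOfLinearIndependentOfCardEqFinrank hli (by simp [h2])
  refine ⟨θ, fun u => ⟨b.repr u 0, b.repr u 1, ?_⟩, ?_⟩
  · have h3 := b.sum_repr u
    rw [Fin.sum_univ_two] at h3
    simp only [b, coe_basisOfLinearIndependentOfCardEqFinrank, Matrix.cons_val_zero,
      Matrix.cons_val_one] at h3
    rw [Algebra.smul_def, Algebra.smul_def, mul_one] at h3
    exact h3.symm
  · intro p q hpq
    have h3 := LinearIndependent.pair_iff.1 hli p q (by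
      rw [Algebra.smul_def, Algebra.smul_def, mul_one]; exact hpq)
    exact h3

theorem no_quad {E L : Type*} [Field E] [Field L] [Algebra E L]
    (h2 : Module.finrank E L = 2) {m : ℕ} (A B : Fin (2 * m + 1 + 1) → E)
    (Lm : Fin (m + 1) → E) (c : E)
    (H1 : ∀ α β : E, ¬ (α = 0 ∧ β = 0) → ∀ (p q : Fin (2 * m + 1 + 1) → E) (j0), p j0 = 1 →
      q j0 = 0 → (∀ s t, pen A B Lm c α β (fun i => s * p i + t * q i) = 0) → q = 0)
    (H2 : ∀ p : Fin (2 * m + 1 + 1) → E, p ≠ 0 → pen A B Lm c 1 0 p = 0 → False)
    (u : Fin (2 * m + 1 + 1) → L) (j0 : Fin (2 * m + 1 + 1)) (hu : u j0 = 1)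
    (hF : pen (fun i => algebraMap E L (A i)) (fun i => algebraMap E L (B i))
      (fun j => algebraMap E L (Lm j)) (algebraMap E L c) 1 0 u = 0)
    (hG : pen (fun i => algebraMap E L (A i)) (fun i => algebraMap E L (B i))
      (fun j => algebraMap E L (Lm j)) (algebraMap E L c) 0 1 u = 0) : False := by
  obtain ⟨θ, hθ1, hθ2⟩ := quad_basis (E := E) (L := L) h2
  obtain ⟨s0, t0, hst⟩ := hθ1 (θ ^ 2)
  choose p q hpq using fun i => hθ1 (u i)
  have hj0 : p j0 = 1 ∧ q j0 = 0 := by
    have h3 := hθ2 (p j0 - 1) (q j0) (by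
      rw [map_sub, map_one]
      linear_combination hu - hpq j0)
    exact ⟨sub_eq_zero.1 h3.1, h3.2⟩
  -- every member of the pencil vanishes at `u`
  have hall : ∀ α β : E, pen A B Lm c α β p + s0 * pen A B Lm c α β q = 0 ∧
      pol A B Lm c α β p q + t0 * pen A B Lm c α β q = 0 := by
    intro α β
    have h3 := pen_lin (fun i => algebraMap E L (A i)) (fun i => algebraMap E L (B i))
      (fun j => algebraMap E L (Lm j)) (algebraMap E L c) (algebraMap E L α) (algebraMap E L β) u
    rw [hF, hG, mul_zero, mul_zero, add_zero] at h3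
    have h4 := pen_comb (fun i => algebraMap E L (A i)) (fun i => algebraMap E L (B i))
      (fun j => algebraMap E L (Lm j)) (algebraMap E L c) (algebraMap E L α) (algebraMap E L β)
      1 θ (fun i => algebraMap E L (p i)) (fun i => algebraMap E L (q i))
    have h5 : (fun i => 1 * algebraMap E L (p i) + θ * algebraMap E L (q i)) = u := by
      funext i
      rw [hpq i]
      ring
    rw [h5, h3, pen_map, pol_map, pen_map, hst] at h4
    apply hθ2
    simp only [map_add, map_mul]
    linear_combination -h4
  -- the member vanishing at `q`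
  obtain ⟨α, β, hαβ, hq0⟩ : ∃ α β : E, ¬ (α = 0 ∧ β = 0) ∧ pen A B Lm c α β q = 0 := by
    by_cases h0 : pen A B Lm c 1 0 q = 0
    · exact ⟨1, 0, fun h => one_ne_zero h.1, h0⟩
    · refine ⟨pen A B Lm c 0 1 q, - pen A B Lm c 1 0 q, fun h => h0 (neg_eq_zero.1 h.2), ?_⟩
      rw [pen_lin]
      ring
  obtain ⟨h3, h4⟩ := hall α β
  rw [hq0, mul_zero, add_zero] at h3 h4
  have hq : q = 0 := by
    refine H1 α β hαβ p q j0 hj0.1 hj0.2 fun s t => ?_
    rw [pen_comb, h3, h4, hq0]
    ring
  -- then the point is rational
  have h5 := (hall 1 0).1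
  have h6 : pen A B Lm c 1 0 q = 0 := by
    rw [hq]
    unfold pen
    simp
  rw [h6, mul_zero, add_zero] at h5
  refine H2 p (fun h0 => ?_) h5
  rw [h0] at hj0
  exact zero_ne_one hj0.1

theorem aeval_qf_pen {k A : Type*} [Field k] [Field A] [Algebra k A] (m : ℕ)
    (a b : Fin (2 * m + 1 + 1) → k) (L : Fin (m + 1) → k) (c : k)
    (x : Fin (2 * m + 1 + 1) → A) :
    aeval x (qf m a (fun _ => c)) = pen (fun i => algebraMap k A (a i))
      (fun i => algebraMap k A (b i)) (fun j => algebraMap k A (L j)) (algebraMap k A c) 1 0 x ∧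
    aeval x (qf m b (fun j => c * L j)) = pen (fun i => algebraMap k A (a i))
      (fun i => algebraMap k A (b i)) (fun j => algebraMap k A (L j)) (algebraMap k A c) 0 1 x := by
  constructor
  · rw [aeval_qf]
    unfold pen
    rw [Finset.mul_sum]
    congr 1
    · exact Finset.sum_congr rfl fun i _ => by ring
    · exact Finset.sum_congr rfl fun j _ => by ring
  · rw [aeval_qf]
    unfold pen
    rw [Finset.mul_sum]
    congr 1
    · exact Finset.sum_congr rfl fun i _ => by ring
    · exact Finset.sum_congr rfl fun j _ => by rw [map_mul]; ring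

/-- Over a field whose irreducible polynomials all have degree a power of two: if the pencil has
the two anisotropy properties, then every closed point of `F = G = 0` has degree divisible by
four. -/
theorem four_dvd {E : Type} [Field E] [CharP E 2]
    (hirr : ∀ f : Polynomial E, Irreducible f → ∃ t, f.natDegree = 2 ^ t)
    {m : ℕ} (A B : Fin (2 * m + 1 + 1) → E)
    (Lm : Fin (m + 1) → E) (c : E)
    (H1 : ∀ α β : E, ¬ (α = 0 ∧ β = 0) → ∀ (p q : Fin (2 * m + 1 + 1) → E) (j0), p j0 = 1 →
      q j0 = 0 → (∀ s t, pen A B Lm c α β (fun i => s * p i + t * q i) = 0) → q = 0)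
    (H2 : ∀ p : Fin (2 * m + 1 + 1) → E, p ≠ 0 → pen A B Lm c 1 0 p = 0 → False)
    (d : ℕ) (hd : d ∈ ciPointDegrees (n := 2 * m + 1) (qf m A (fun _ => c))
      (qf m B (fun j => c * Lm j))) : 4 ∣ d := by
  obtain ⟨x, hx, hF, hG, rfl⟩ := hd
  by_contra hcon
  have := cr_fin x
  obtain ⟨t, ht⟩ := finrank_two_pow hirr (pointField E x)
  obtain ⟨j0, hj0⟩ : ∃ j, x j ≠ 0 := by
    by_contra hcon
    push Not at hcon
    exact hx (funext hcon)
  let u : Fin (2 * m + 1 + 1) → pointField E x := fun j =>
    ⟨x j / x j0, IntermediateField.subset_adjoin E _ ⟨j, j0, hj0, rfl⟩⟩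
  have hu : u j0 = 1 := Subtype.ext (div_self hj0)
  have hux : ∀ j, ((u j : pointField E x) : AlgebraicClosure E) = (x j0)⁻¹ * x j := fun j => by
    show x j / x j0 = _
    rw [div_eq_inv_mul]
  have hF' : pen (fun i => algebraMap E (pointField E x) (A i))
      (fun i => algebraMap E (pointField E x) (B i))
      (fun j => algebraMap E (pointField E x) (Lm j)) (algebraMap E (pointField E x) c)
      1 0 u = 0 := by
    rw [(aeval_qf_pen m A B Lm c x).1] at hF
    have h3 := pen_smul (fun i => algebraMap E (AlgebraicClosure E) (A i))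
      (fun i => algebraMap E (AlgebraicClosure E) (B i))
      (fun j => algebraMap E (AlgebraicClosure E) (Lm j)) (algebraMap E (AlgebraicClosure E) c)
      1 0 (x j0)⁻¹ x
    rw [hF, mul_zero] at h3
    have h4 := pen_map (algebraMap (pointField E x) (AlgebraicClosure E))
      (fun i => algebraMap E (pointField E x) (A i))
      (fun i => algebraMap E (pointField E x) (B i))
      (fun j => algebraMap E (pointField E x) (Lm j)) (algebraMap E (pointField E x) c) 1 0 u
    apply (algebraMap (pointField E x) (AlgebraicClosure E)).injective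
    rw [map_zero, ← h4, map_one, map_zero]
    rw [← h3]
    congr 1
    funext j
    exact hux j
  have hG' : pen (fun i => algebraMap E (pointField E x) (A i))
      (fun i => algebraMap E (pointField E x) (B i))
      (fun j => algebraMap E (pointField E x) (Lm j)) (algebraMap E (pointField E x) c)
      0 1 u = 0 := by
    rw [(aeval_qf_pen m A B Lm c x).2] at hG
    have h3 := pen_smul (fun i => algebraMap E (AlgebraicClosure E) (A i))
      (fun i => algebraMap E (AlgebraicClosure E) (B i))
      (fun j => algebraMap E (AlgebraicClosure E) (Lm j)) (algebraMap E (AlgebraicClosure E) c)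
      0 1 (x j0)⁻¹ x
    rw [hG, mul_zero] at h3
    have h4 := pen_map (algebraMap (pointField E x) (AlgebraicClosure E))
      (fun i => algebraMap E (pointField E x) (A i))
      (fun i => algebraMap E (pointField E x) (B i))
      (fun j => algebraMap E (pointField E x) (Lm j)) (algebraMap E (pointField E x) c) 0 1 u
    apply (algebraMap (pointField E x) (AlgebraicClosure E)).injective
    rw [map_zero, ← h4, map_one, map_zero]
    rw [← h3]
    congr 1
    funext j
    exact hux j
  rcases Nat.lt_or_ge t 2 with h2 | h2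
  · interval_cases t
    · -- the point is rational
      rw [pow_zero, IntermediateField.finrank_eq_one_iff] at ht
      have hbot : ∀ z : pointField E x, ∃ w : E, algebraMap E (pointField E x) w = z := by
        intro z
        have hz : (z : AlgebraicClosure E) ∈ (⊥ : IntermediateField E (AlgebraicClosure E)) := by
          rw [← ht]; exact z.2
        obtain ⟨w, hw⟩ := IntermediateField.mem_bot.1 hz
        exact ⟨w, Subtype.ext hw⟩
      choose w hw using fun i => hbot (u i)
      refine H2 w ?_ ?_
      · intro h0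
        have h3 := hw j0
        rw [h0, hu] at h3
        simp at h3
      · apply (algebraMap E (pointField E x)).injective
        have h4 := pen_map (algebraMap E (pointField E x)) A B Lm c 1 0 w
        rw [map_zero, ← h4, map_one, map_zero]
        have h5 : (fun i => algebraMap E (pointField E x) (w i)) = u := funext hw
        rw [h5]
        exact hF'
    · exact no_quad (by simpa using ht) A B Lm c H1 H2 u j0 hu hF' hG'
  · apply hcon
    rw [ht]
    exact pow_dvd_pow 2 h2

end Pool.Agent.Q49.CQ
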