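import Pool.Agent.Q49.CQ.E

set_option autoImplicit false

open MvPolynomial Pool.Agent.Helper346.Cd

namespace Pool.Agent.Q49.CQ

/-- elimination: coordinates of a point of the plane section -/
theorem exists_coords {E K : Type*} [Field E] [Field K] [IsAlgClosed K] [Algebra E K] [CharP K 2]
    (A0 A1 A2 B0 B1 B2 L c : E) (hc : c ≠ 0)
    (hres : (A0 * B1 + A1 * B0) ^ 2 ≠ c ^ 2 * ((L * A0 + B0) * (L * A1 + B1)))
    (hP1 : L * A1 + B1 ≠ 0) (h12 : A1 * B2 + A2 * B1 ≠ 0) :
    ∃ x0 x1 : K, x1 ∈ IntermediateField.adjoin E {x0} ∧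
      Module.finrank E (IntermediateField.adjoin E {x0}) ≤ 4 ∧
      IsIntegral E x0 ∧
      algebraMap E K A0 * x0 ^ 2 + algebraMap E K A1 * x1 ^ 2 + algebraMap E K A2 +
        algebraMap E K c * (x0 * x1) = 0 ∧
      algebraMap E K B0 * x0 ^ 2 + algebraMap E K B1 * x1 ^ 2 + algebraMap E K B2 +
        algebraMap E K c * algebraMap E K L * (x0 * x1) = 0 := by
  have htwo : (2 : K) = 0 := by
    have := CharP.cast_eq_zero K 2
    simpa using this
  have htwoE : (2 : E) = 0 := by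
    apply (algebraMap E K).injective
    rw [map_ofNat, map_zero]
    exact htwo
  obtain ⟨g4, hg4d⟩ : ∃ z, z = c ^ 2 * ((L * A0 + B0) * (L * A1 + B1)) -
      (A0 * B1 + A1 * B0) ^ 2 := ⟨_, rfl⟩
  obtain ⟨g2, hg2d⟩ : ∃ z, z = c ^ 2 * (L * A1 + B1) * (L * A2 + B2) := ⟨_, rfl⟩
  obtain ⟨g0, hg0d⟩ : ∃ z, z = (A1 * B2 + A2 * B1) ^ 2 := ⟨_, rfl⟩
  let g : Polynomial E := Polynomial.C g4 * Polynomial.X ^ 4 +
    Polynomial.C g2 * Polynomial.X ^ 2 + Polynomial.C g0
  have hlead : g4 ≠ 0 := by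
    rw [hg4d]
    exact sub_ne_zero.2 fun h => hres h.symm
  have hg4 : g.coeff 4 = g4 := by
    simp [g, Polynomial.coeff_X_pow, Polynomial.coeff_C]
  have hg0 : g ≠ 0 := by
    intro h
    rw [h, Polynomial.coeff_zero] at hg4
    exact hlead hg4.symm
  have hgd : g.natDegree ≤ 4 := by
    simp only [g]
    compute_degree
  have hgd4 : g.natDegree = 4 := le_antisymm hgd (Polynomial.le_natDegree_of_ne_zero (by
    rw [hg4]; exact hlead))
  obtain ⟨x0, hx0⟩ := IsAlgClosed.exists_aeval_eq_zero K g (by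
    rw [Polynomial.degree_eq_natDegree hg0, hgd4]; norm_num)
  have hint : IsIntegral E x0 := isAlgebraic_iff_isIntegral.1 ⟨g, hg0, hx0⟩
  have hdeg : Module.finrank E (IntermediateField.adjoin E {x0}) ≤ 4 := by
    rw [IntermediateField.adjoin.finrank hint, ← hgd4]
    exact Polynomial.natDegree_le_of_dvd (minpoly.dvd E x0 hx0) hg0
  have hev : algebraMap E K g4 * x0 ^ 4 + algebraMap E K g2 * x0 ^ 2 +
      algebraMap E K g0 = 0 := by
    simpa [g] using hx0
  rw [hg4d, hg2d, hg0d] at hev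
  simp only [map_mul, map_add, map_sub, map_pow] at hev
  have hc' : algebraMap E K c ≠ 0 := by simpa using hc
  have hP1' : algebraMap E K L * algebraMap E K A1 + algebraMap E K B1 ≠ 0 := by
    rw [← map_mul, ← map_add]; exact (map_ne_zero _).2 hP1
  have h12' : algebraMap E K A1 * algebraMap E K B2 + algebraMap E K A2 * algebraMap E K B1 ≠ 0 := by
    rw [← map_mul, ← map_mul, ← map_add]; exact (map_ne_zero _).2 h12
  have hx00 : x0 ≠ 0 := by
    intro h0
    rw [h0] at hev
    apply h12'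
    have : (algebraMap E K A1 * algebraMap E K B2 + algebraMap E K A2 * algebraMap E K B1) ^ 2
        = 0 := by linear_combination hev
    exact pow_eq_zero_iff two_ne_zero |>.1 this
  have hx0m : x0 ∈ IntermediateField.adjoin E {x0} := IntermediateField.mem_adjoin_simple_self E x0
  have hmE : ∀ e : E, algebraMap E K e ∈ IntermediateField.adjoin E {x0} := fun e =>
    IntermediateField.algebraMap_mem _ e
  set a0 := algebraMap E K A0 with ha0
  set a1 := algebraMap E K A1 with ha1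
  set a2 := algebraMap E K A2 with ha2
  set b0 := algebraMap E K B0 with hb0
  set b1 := algebraMap E K B1 with hb1
  set b2 := algebraMap E K B2 with hb2
  set l := algebraMap E K L with hl
  set c1 := algebraMap E K c with hc1
  obtain ⟨Y, hY⟩ : ∃ Y : K, Y = ((l * a0 + b0) * x0 ^ 2 + (l * a2 + b2)) / (l * a1 + b1) :=
    ⟨_, rfl⟩
  have hYe : (l * a1 + b1) * Y = (l * a0 + b0) * x0 ^ 2 + (l * a2 + b2) := by
    rw [hY]; field_simp
  obtain ⟨x1, hx1⟩ : ∃ x1 : K, x1 = (a0 * x0 ^ 2 + a1 * Y + a2) / (c1 * x0) := ⟨_, rfl⟩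
  have hx1e : c1 * x0 * x1 = a0 * x0 ^ 2 + a1 * Y + a2 := by
    rw [hx1]; field_simp
  have hYm : Y ∈ IntermediateField.adjoin E {x0} := by
    rw [hY]
    exact div_mem (add_mem (mul_mem (add_mem (mul_mem (hmE _) (hmE _)) (hmE _)) (pow_mem hx0m 2))
      (add_mem (mul_mem (hmE _) (hmE _)) (hmE _))) (add_mem (mul_mem (hmE _) (hmE _)) (hmE _))
  have hx1m : x1 ∈ IntermediateField.adjoin E {x0} := by
    rw [hx1]
    exact div_mem (add_mem (add_mem (mul_mem (hmE _) (pow_mem hx0m 2)) (mul_mem (hmE _) hYm))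
      (hmE _)) (mul_mem (hmE _) hx0m)
  -- `x1² = Y`
  have hkey : (l * a1 + b1) ^ 2 * ((a0 * x0 ^ 2 + a1 * Y + a2) ^ 2 - c1 ^ 2 * x0 ^ 2 * Y) = 0 := by
    have e1 : (l * a1 + b1) * (a0 * x0 ^ 2 + a1 * Y + a2) =
        (a0 * b1 + a1 * b0) * x0 ^ 2 + (a1 * b2 + a2 * b1) := by
      linear_combination a1 * hYe + (l * a0 * a1 * x0 ^ 2 + l * a1 * a2) * htwo
    have e2 : (l * a1 + b1) ^ 2 * ((a0 * x0 ^ 2 + a1 * Y + a2) ^ 2 - c1 ^ 2 * x0 ^ 2 * Y) =
        ((a0 * b1 + a1 * b0) * x0 ^ 2 + (a1 * b2 + a2 * b1)) ^ 2 -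
        c1 ^ 2 * x0 ^ 2 * (l * a1 + b1) * ((l * a0 + b0) * x0 ^ 2 + (l * a2 + b2)) := by
      rw [← e1, ← hYe]
      ring
    rw [e2]
    linear_combination (-1) * hev + ((a0 * b1 + a1 * b0) * x0 ^ 2 * (a1 * b2 + a2 * b1) +
      (a1 * b2 + a2 * b1) ^ 2) * htwo
  have hkey2 : (a0 * x0 ^ 2 + a1 * Y + a2) ^ 2 = c1 ^ 2 * x0 ^ 2 * Y := by
    have := (mul_eq_zero.1 hkey).resolve_left (pow_ne_zero 2 hP1')
    exact sub_eq_zero.1 this
  have hx1sq : x1 ^ 2 = Y := by
    have h3 : c1 ^ 2 * x0 ^ 2 ≠ 0 := mul_ne_zero (pow_ne_zero 2 hc') (pow_ne_zero 2 hx00)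
    apply mul_left_cancel₀ h3
    rw [← hkey2, ← hx1e]
    ring
  refine ⟨x0, x1, hx1m, hdeg, hint, ?_, ?_⟩
  · rw [hx1sq]
    linear_combination hx1e + (a0 * x0 ^ 2 + a1 * Y + a2) * htwo
  · rw [hx1sq]
    linear_combination l * hx1e - hYe + (l * a1 + b1) * Y * htwo

/-- The plane section of `F = G = 0` by the first three coordinates contains a point whose
residue field has degree at most four. -/
theorem exists_small_point {E : Type*} [Field E] [CharP E 2] {m : ℕ}
    (A B : Fin (2 * m + 1 + 1) → E) (Lm : Fin (m + 1) → E) (c : E) (hc : c ≠ 0)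
    (i2 : Fin (2 * m + 1 + 1)) (h2 : (i2 : ℕ) = 2)
    (hres : (A (lo 0) * B (hi 0) + A (hi 0) * B (lo 0)) ^ 2 ≠
      c ^ 2 * ((Lm 0 * A (lo 0) + B (lo 0)) * (Lm 0 * A (hi 0) + B (hi 0))))
    (hP1 : Lm 0 * A (hi 0) + B (hi 0) ≠ 0)
    (h12 : A (hi 0) * B i2 + A i2 * B (hi 0) ≠ 0) :
    ∃ d ∈ ciPointDegrees (n := 2 * m + 1) (qf m A (fun _ => c)) (qf m B (fun j => c * Lm j)),
      0 < d ∧ d ≤ 4 := by
  classical
  have hchar : CharP (AlgebraicClosure E) 2 :=
    charP_of_injective_algebraMap (algebraMap E (AlgebraicClosure E)).injective 2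
  obtain ⟨x0, x1, hx1m, hdeg, hint, hF, hG⟩ := exists_coords (E := E) (K := AlgebraicClosure E)
    (A (lo 0)) (A (hi 0)) (A i2) (B (lo 0)) (B (hi 0)) (B i2) (Lm 0) c hc hres hP1 h12
  have h02 : lo 0 ≠ i2 := by
    intro h
    have := congrArg Fin.val h
    rw [h2] at this
    simp [lo] at this
  have h12' : hi 0 ≠ i2 := by
    intro h
    have := congrArg Fin.val h
    rw [h2] at this
    simp [hi] at this
  have h01 : lo (0 : Fin (m + 1)) ≠ hi 0 := lo_ne_hi 0 0
  let x : Fin (2 * m + 1 + 1) → AlgebraicClosure E := fun i =>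
    if i = lo 0 then x0 else if i = hi 0 then x1 else if i = i2 then 1 else 0
  have hxlo : x (lo 0) = x0 := if_pos rfl
  have hxhi : x (hi 0) = x1 := by
    show (if hi 0 = lo 0 then x0 else if hi 0 = hi 0 then x1 else if hi 0 = i2 then 1 else 0) = x1
    rw [if_neg h01.symm, if_pos rfl]
  have hx2 : x i2 = 1 := by
    show (if i2 = lo 0 then x0 else if i2 = hi 0 then x1 else if i2 = i2 then 1 else 0) = 1
    rw [if_neg h02.symm, if_neg h12'.symm, if_pos rfl]
  have hxo : ∀ i, i ≠ lo 0 → i ≠ hi 0 → i ≠ i2 → x i = 0 := by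
    intro i h3 h4 h5
    show (if i = lo 0 then x0 else if i = hi 0 then x1 else if i = i2 then 1 else 0) = 0
    rw [if_neg h3, if_neg h4, if_neg h5]
  have hsum : ∀ w : Fin (2 * m + 1 + 1) → AlgebraicClosure E, ∑ i, w i * x i ^ 2 =
      w (lo 0) * x0 ^ 2 + (w (hi 0) * x1 ^ 2 + w i2) := by
    intro w
    rw [← Finset.sum_subset (Finset.subset_univ {lo 0, hi 0, i2})]
    · rw [Finset.sum_insert (by simp [h01, h02]), Finset.sum_pair h12', hxlo, hxhi, hx2]
      ring
    · intro i _ hi'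
      simp only [Finset.mem_insert, Finset.mem_singleton, not_or] at hi'
      rw [hxo i hi'.1 hi'.2.1 hi'.2.2]
      ring
  have hsum2 : ∀ w : Fin (m + 1) → AlgebraicClosure E, ∑ j, w j * (x (lo j) * x (hi j)) =
      w 0 * (x0 * x1) := by
    intro w
    rw [Finset.sum_eq_single (0 : Fin (m + 1)), hxlo, hxhi]
    · intro j _ hj
      have h3 : x (hi j) = 0 := by
        apply hxo
        · exact fun h => lo_ne_hi 0 j h.symm
        · exact fun h => hj (hi_inj h)
        · intro h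
          have := congrArg Fin.val h
          rw [h2] at this
          simp only [hi] at this
          omega
      rw [h3, mul_zero, mul_zero]
    · intro h; exact absurd (Finset.mem_univ _) h
  have hfin : FiniteDimensional E (IntermediateField.adjoin E {x0}) :=
    IntermediateField.adjoin.finiteDimensional hint
  have hxne : x ≠ 0 := fun h => by
    have := congrFun h i2
    rw [hx2] at this
    exact one_ne_zero this
  have hmem : ∀ i, x i ∈ IntermediateField.adjoin E {x0} := by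
    intro i
    by_cases h3 : i = lo 0
    · rw [h3, hxlo]; exact IntermediateField.mem_adjoin_simple_self E x0
    by_cases h4 : i = hi 0
    · rw [h4, hxhi]; exact hx1m
    by_cases h5 : i = i2
    · rw [h5, hx2]; exact one_mem _
    · rw [hxo i h3 h4 h5]; exact zero_mem _
  have hle : pointField E x ≤ IntermediateField.adjoin E {x0} := by
    unfold pointField
    rw [IntermediateField.adjoin_le_iff]
    rintro z ⟨i, j, _, rfl⟩
    exact div_mem (hmem i) (hmem j)
  have := cr_fin x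
  refine ⟨Module.finrank E (pointField E x), ⟨x, hxne, ?_, ?_, rfl⟩, Module.finrank_pos, ?_⟩
  · rw [aeval_qf, hsum, hsum2]
    linear_combination hF
  · rw [aeval_qf, hsum, hsum2, map_mul]
    linear_combination hG
  · refine le_trans ?_ hdeg
    exact LinearMap.finrank_le_finrank_of_injective
      (f := (IntermediateField.inclusion hle).toLinearMap)
      (IntermediateField.inclusion_injective hle)

end Pool.Agent.Q49.CQ
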