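import Pool.Agent.Q49.CQ.Defs

set_option autoImplicit false

open MvPolynomial Pool.Agent.Helper346.Cd

namespace Pool.Agent.Q49.CQ

/-- A nontrivial continuous character of order two gives a nonzero class in `H¹(G, ℤ/2)`. -/
theorem h1_of_character {G : Type} [Group G] [TopologicalSpace G] (χ : G → ZMod 2)
    (hmul : ∀ g h, χ (g * h) = χ g + χ h) (hloc : IsLocallyConstant χ) (hne : ∃ g, χ g ≠ 0) :
    ∃ (M : Type) (_ : AddCommGroup M) (_ : DistribMulAction G M),
      IsDiscreteModule G M ∧ (∀ m : M, IsOfFinAddOrder m) ∧ ¬ HSuccVanishes G M 0 := by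
  let act : DistribMulAction G (ZMod 2) :=
    { smul := fun _ n => n
      one_smul := fun _ => rfl
      mul_smul := fun _ _ _ => rfl
      smul_zero := fun _ => rfl
      smul_add := fun _ _ _ => rfl }
  have hact : ∀ (g : G) (n : ZMod 2), g • n = n := fun _ _ => rfl
  refine ⟨ZMod 2, inferInstance, act, ?_, ?_, ?_⟩
  · intro m
    simp only [hact]
    simp
  · intro m
    exact isOfFinAddOrder_of_finite m
  · intro hv
    have hcont : ∀ j : Fin 2, IsLocallyConstant (fun x : Fin (0 + 2) → G => χ (x j)) := fun j =>
      hloc.comp_continuous (continuous_apply j)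
    obtain ⟨g, hg, hdg⟩ := hv (fun x => χ (x 0) + χ (x 1)) ⟨(hcont 0).add (hcont 1), by
      intro g x
      rw [hact]
      show χ (g * x 0) + χ (g * x 1) = χ (x 0) + χ (x 1)
      rw [hmul, hmul]
      have : χ g + χ g = 0 := CharTwo.add_self_eq_zero _
      linear_combination this⟩ (by
      funext x
      unfold diff
      rw [Fin.sum_univ_three]
      simp only [Fin.val_zero, pow_zero, one_smul, Fin.val_one, pow_one, Fin.val_two]
      show χ (x ((0 : Fin 3).succAbove 0)) + χ (x ((0 : Fin 3).succAbove 1)) +
        (-1 : ℤ) • (χ (x ((1 : Fin 3).succAbove 0)) + χ (x ((1 : Fin 3).succAbove 1))) +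
        ((-1 : ℤ) ^ 2) • (χ (x ((2 : Fin 3).succAbove 0)) + χ (x ((2 : Fin 3).succAbove 1))) = 0
      have e1 : (0 : Fin 3).succAbove 0 = 1 := by decide
      have e2 : (0 : Fin 3).succAbove 1 = 2 := by decide
      have e3 : (1 : Fin 3).succAbove 0 = 0 := by decide
      have e4 : (1 : Fin 3).succAbove 1 = 2 := by decide
      have e5 : (2 : Fin 3).succAbove 0 = 0 := by decide
      have e6 : (2 : Fin 3).succAbove 1 = 1 := by decide
      rw [e1, e2, e3, e4, e5, e6]
      simp only [neg_smul, one_smul, even_two, Even.neg_pow, one_pow]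
      have : χ (x 1) + χ (x 1) = 0 := CharTwo.add_self_eq_zero _
      linear_combination this)
    obtain ⟨σ, hσ⟩ := hne
    apply hσ
    have hconst : ∀ x : Fin 1 → G, g x = g (fun _ => 1) := by
      intro x
      have h1 := hg.2 (x 0) (fun _ => 1)
      rw [hact] at h1
      rw [← h1]
      congr 1
      funext i
      rw [Subsingleton.elim i 0, mul_one]
    have h1 := congrFun hdg ![1, σ]
    unfold diff at h1
    rw [Fin.sum_univ_two] at h1
    simp only [hconst] at h1
    have h2 : χ 1 = 0 := by
      have := hmul 1 1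
      rw [mul_one] at this
      linear_combination -this
    simp only [Fin.val_zero, pow_zero, one_smul, Fin.val_one, pow_one, neg_smul, add_neg_cancel,
      Matrix.cons_val_zero, Matrix.cons_val_one, h2, zero_add] at h1
    exact h1.symm

/-- A field of characteristic two with a separable quadratic extension has nonzero `H¹` of its
absolute Galois group. -/
theorem h1_of_quadratic {k : Type} [Field k] [CharP k 2] (β γ : k) (hβ : β ≠ 0)
    (hroot : ∀ t : k, t ^ 2 + β * t + γ ≠ 0) :
    ∃ (M : Type) (_ : AddCommGroup M) (_ : DistribMulAction Gal(SeparableClosure k/k) M),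
      IsDiscreteModule Gal(SeparableClosure k/k) M ∧ (∀ m : M, IsOfFinAddOrder m) ∧
      ¬ HSuccVanishes Gal(SeparableClosure k/k) M 0 := by
  classical
  have hchar : CharP (SeparableClosure k) 2 :=
    charP_of_injective_algebraMap (algebraMap k (SeparableClosure k)).injective 2
  have htwo : (2 : SeparableClosure k) = 0 := by
    have := CharP.cast_eq_zero (SeparableClosure k) 2
    simpa using this
  have htwo' : (2 : k) = 0 := by
    have := CharP.cast_eq_zero k 2
    simpa using this
  obtain ⟨θ, hθ⟩ := IsSepClosed.exists_root_C_mul_X_pow_add_C_mul_X_add_C' (k := SeparableClosure k)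
    2 2 (1 : SeparableClosure k) (algebraMap k _ β) (algebraMap k _ γ) (dvd_refl 2) le_rfl
    (by simpa using hβ)
  have hθ' : θ ^ 2 + algebraMap k _ β * θ + algebraMap k _ γ = 0 := by
    linear_combination hθ
  have hβ' : algebraMap k (SeparableClosure k) β ≠ 0 := by simpa using hβ
  have hconj : ∀ σ : Gal(SeparableClosure k/k), σ θ = θ ∨ σ θ = θ + algebraMap k _ β := by
    intro σ
    have h1 : (σ θ) ^ 2 + algebraMap k _ β * σ θ + algebraMap k _ γ = 0 := by
      have := congrArg σ hθ'
      simpa using this
    have h2 : (σ θ - θ) * (σ θ - (θ + algebraMap k _ β)) = 0 := by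
      linear_combination h1 + hθ' - (θ * σ θ + σ θ * algebraMap k _ β + algebraMap k _ γ) * htwo
    rcases mul_eq_zero.1 h2 with h3 | h3
    · exact Or.inl (sub_eq_zero.1 h3)
    · exact Or.inr (sub_eq_zero.1 h3)
  have hne : θ + algebraMap k _ β ≠ θ := by
    intro h
    apply hβ'
    linear_combination h
  refine h1_of_character (fun σ : Gal(SeparableClosure k/k) => if σ θ = θ then 0 else 1) ?_ ?_ ?_
  · intro σ τ
    have hmul : (σ * τ) θ = σ (τ θ) := rfl
    rcases hconj τ with h1 | h1
    · simp only [hmul, h1, if_true, add_zero]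
    · rcases hconj σ with h2 | h2
      · have h3 : (σ * τ) θ ≠ θ := by
          rw [hmul, h1, map_add, h2, AlgEquiv.commutes]
          exact hne
        have h4 : τ θ ≠ θ := by rw [h1]; exact hne
        rw [if_neg h3, if_pos h2, if_neg h4, zero_add]
      · have h3 : (σ * τ) θ = θ := by
          rw [hmul, h1, map_add, h2, AlgEquiv.commutes]
          linear_combination (algebraMap k (SeparableClosure k) β) * htwo
        have h4 : τ θ ≠ θ := by rw [h1]; exact hne
        have h5 : σ θ ≠ θ := by rw [h2]; exact hne
        rw [if_pos h3, if_neg h5, if_neg h4]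
        decide
  · rw [IsLocallyConstant.iff_eventually_eq]
    intro σ
    have h1 := stabilizer_isOpen_of_isIntegral (K := k) (L := SeparableClosure k) θ
    have h2 : Continuous (fun y : Gal(SeparableClosure k/k) => σ⁻¹ * y) := by fun_prop
    have h3 := (h1.preimage h2).mem_nhds (x := σ) (by simp)
    filter_upwards [h3] with y hy
    have h4 : (σ⁻¹ * y) • θ = θ := hy
    rw [mul_smul, inv_smul_eq_iff] at h4
    have h5 : y θ = σ θ := h4
    rw [h5]
  · by_contra hcon
    push Not at hcon
    have hfix : ∀ σ : Gal(SeparableClosure k/k), σ θ = θ := by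
      intro σ
      by_contra h
      have := hcon σ
      rw [if_neg h] at this
      exact one_ne_zero this
    have hbot : θ ∈ (⊥ : IntermediateField k (SeparableClosure k)) :=
      (InfiniteGalois.mem_bot_iff_fixed θ).2 hfix
    obtain ⟨t, ht⟩ := IntermediateField.mem_bot.1 hbot
    apply hroot t
    apply (algebraMap k (SeparableClosure k)).injective
    rw [← ht] at hθ'
    simpa using hθ'

end Pool.Agent.Q49.CQ
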