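import Pool.Agent.Y233.Cd.F
import Pool.Agent.Q49.CQ.F
import Pool.Agent.Q49.CQ.G

set_option autoImplicit false

open MvPolynomial Pool.Agent.Helper346.Cd

namespace Pool.Agent.Q49.CQ

theorem no_point {k : Type*} [Field k] {n : ℕ} (F G : MvPolynomial (Fin (n + 1)) k)
    (h : ∀ d ∈ ciPointDegrees F G, 4 ∣ d) : ¬ HasCIPoint F G := by
  rintro ⟨y, hy, hF, hG⟩
  have e : ∀ F : MvPolynomial (Fin (n + 1)) k, algebraMap k (AlgebraicClosure k) (eval y F) =
      aeval (fun i => algebraMap k (AlgebraicClosure k) (y i)) F := by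
    intro F
    rw [cr_aeval, eval_eq', map_sum]
    refine Finset.sum_congr rfl fun m _ => ?_
    rw [map_mul, map_prod]
    simp only [map_pow]
  have h1 := h _ ⟨fun i => algebraMap k (AlgebraicClosure k) (y i), ?_, by rw [← e, hF, map_zero],
    by rw [← e, hG, map_zero], rfl⟩
  · have h2 : Module.finrank k (pointField k
        (fun i => algebraMap k (AlgebraicClosure k) (y i))) = 1 := by
      rw [IntermediateField.finrank_eq_one_iff, eq_bot_iff]
      unfold pointField
      rw [IntermediateField.adjoin_le_iff]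
      rintro z ⟨i, j, _, rfl⟩
      rw [← map_div₀]
      exact IntermediateField.algebraMap_mem _ _
    rw [h2] at h1
    norm_num at h1
  · intro h0
    apply hy
    funext i
    have := congrFun h0 i
    simpa using this

theorem index_four {k : Type*} [Field k] {n : ℕ} (F G : MvPolynomial (Fin (n + 1)) k)
    (h : ∀ d ∈ ciPointDegrees F G, 4 ∣ d) (h' : ∃ d ∈ ciPointDegrees F G, 0 < d ∧ d ≤ 4) :
    IsCIIndex F G 4 := by
  refine ⟨h, fun m' hm' => ?_⟩
  obtain ⟨d, hd, hd0, hd4⟩ := h'
  have h1 : d = 4 := by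
    have := Nat.le_of_dvd hd0 (h d hd)
    omega
  rw [← h1]
  exact hm' d hd

theorem main (k₀ : Type) [Field k₀] [CharP k₀ 2] :
    ∃ (k : Type) (_ : Field k) (_ : Algebra k₀ k), CdEqOne Gal(SeparableClosure k/k) ∧
      ∀ m : ℕ, 1 ≤ m → ∃ F G : MvPolynomial (Fin (2 * m + 1 + 1)) k,
        F.IsHomogeneous 2 ∧ G.IsHomogeneous 2 ∧ IsSmoothCI F G ∧ ¬ HasCIPoint F G ∧
        IsCIIndex F G 4 := by
  have : Fact (Nat.Prime 2) := ⟨Nat.prime_two⟩
  let κ := FractionRing (MvPolynomial ℕ k₀)
  let K0 := FractionRing (Polynomial κ)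
  have : CharP κ 2 :=
    charP_of_injective_algebraMap (IsFractionRing.injective (MvPolynomial ℕ k₀) κ) 2
  have : CharP K0 2 :=
    charP_of_injective_algebraMap (IsFractionRing.injective (Polynomial κ) K0) 2
  obtain ⟨E, hE1, hE2⟩ := exists_maximal_prime_to 2 Nat.prime_two K0 (SeparableClosure K0)
  have : CharP E 2 := charP_of_injective_algebraMap (algebraMap K0 E).injective 2
  have hirr : ∀ f : Polynomial E, Irreducible f → ∃ t, f.natDegree = 2 ^ t :=
    Pool.Agent.Y233.Cd.irr_pow
      (fun M _ _ _ h => Pool.Agent.Y233.Cd.finrank_eq_one_of_prime_to hE2 M h)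
  let toE : k₀ →+* E := (algebraMap K0 E).comp ((algebraMap (Polynomial κ) K0).comp
    (Polynomial.C.comp ((algebraMap (MvPolynomial ℕ k₀) κ).comp MvPolynomial.C)))
  -- the field `E` over `K0`
  have hEsep : Algebra.IsSeparable K0 E :=
    Algebra.isSeparable_tower_bot_of_isSeparable K0 E (SeparableClosure K0)
  have hE' : ∀ T : IntermediateField K0 E, FiniteDimensional K0 T →
      ¬ 2 ∣ Module.finrank K0 T := by
    intro T hT
    have h1 : Module.finrank K0 (IntermediateField.lift T) = Module.finrank K0 T :=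
      (IntermediateField.liftAlgEquiv T).toLinearEquiv.finrank_eq.symm
    have h2 : FiniteDimensional K0 (IntermediateField.lift T) :=
      Module.Finite.equiv (IntermediateField.liftAlgEquiv T).toLinearEquiv
    rw [← h1]
    exact hE1 _ (IntermediateField.lift_le T) h2
  let ι : κ →+* E := (algebraMap K0 E).comp ((algebraMap (Polynomial κ) K0).comp Polynomial.C)
  let c : E := algebraMap K0 E (algebraMap (Polynomial κ) K0 Polynomial.X)
  have hc : c ≠ 0 := by
    show algebraMap K0 E (algebraMap (Polynomial κ) K0 Polynomial.X) ≠ 0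
    rw [ne_eq, map_eq_zero_iff _ (algebraMap K0 E).injective,
      map_eq_zero_iff _ (IsFractionRing.injective (Polynomial κ) K0)]
    exact Polynomial.X_ne_zero
  -- the coefficients
  let a : (m : ℕ) → Fin (2 * m + 1 + 1) → κ := fun m i =>
    algebraMap (MvPolynomial ℕ k₀) κ (X (i : ℕ))
  let b : (m : ℕ) → Fin (2 * m + 1 + 1) → κ := fun m i =>
    algebraMap (MvPolynomial ℕ k₀) κ (X (2 * m + 1 + 1 + (i : ℕ)))
  let lam : (m : ℕ) → Fin (m + 1) → κ := fun m j => algebraMap (MvPolynomial ℕ k₀) κ (X (j : ℕ))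
  have hab : ∀ m, ∀ y : Fin (2 * m + 1 + 1) → Fin (2 * m + 1 + 1) → κ,
      ∑ i, ∑ j, a m i * b m j * y i j ^ 2 = 0 → ∀ i j, y i j = 0 := by
    intro m y hy
    refine indep_pair k₀ (2 * m + 1 + 1) y ?_
    rw [← hy]
    exact Finset.sum_congr rfl fun i _ => Finset.sum_congr rfl fun j _ => by rw [map_mul]
  have hinjκ : Function.Injective (algebraMap (MvPolynomial ℕ k₀) κ) :=
    IsFractionRing.injective (MvPolynomial ℕ k₀) κ
  have hvv : ∀ (m : ℕ) (i j : Fin (2 * m + 1 + 1)), i ≠ j →
      a m i * b m j + a m j * b m i ≠ 0 := by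
    classical
    intro m i j hij h0
    have h1 := hab m (fun i' j' => if (i' = i ∧ j' = j) ∨ (i' = j ∧ j' = i) then 1 else 0) (by
      have e : ∀ i' j', a m i' * b m j' *
          (if (i' = i ∧ j' = j) ∨ (i' = j ∧ j' = i) then (1 : κ) else 0) ^ 2 =
          (if i' = i then (if j' = j then a m i' * b m j' else 0) else 0) +
          (if i' = j then (if j' = i then a m i' * b m j' else 0) else 0) := by
        intro i' j'
        by_cases h1 : i' = i
        · subst h1
          by_cases h2 : j' = j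
          · subst h2
            simp [hij]
          · simp [h2, hij]
        · by_cases h2 : i' = j
          · subst h2
            by_cases h3 : j' = i
            · simp [h3, h1]
            · simp [h3, h1]
          · simp [h1, h2]
      rw [Finset.sum_congr rfl fun i' _ => Finset.sum_congr rfl fun j' _ => e i' j']
      simp only [Finset.sum_add_distrib, Finset.sum_ite_eq', Finset.mem_univ, if_true,
        Finset.sum_ite_irrel, Finset.sum_const_zero]
      exact h0) i j
    simp at h1
  have hlamab : ∀ (m : ℕ) (j : Fin (m + 1)) (i : Fin (2 * m + 1 + 1)),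
      lam m j * a m i + b m i ≠ 0 := by
    intro m j i h0
    have h1 : (X (j : ℕ) * X (i : ℕ) + X (2 * m + 1 + 1 + (i : ℕ)) : MvPolynomial ℕ k₀) = 0 := by
      apply hinjκ
      rw [map_add, map_mul, map_zero]
      exact h0
    have h2 := congrArg (pderiv (2 * m + 1 + 1 + (i : ℕ))) h1
    rw [map_add, map_zero, Derivation.leibniz, pderiv_X_self, pderiv_X_of_ne (by omega),
      pderiv_X_of_ne (by omega)] at h2
    simp at h2
  -- transcendence of `c`
  have hcκ : ∀ v w : κ, v ≠ 0 → ι v ^ 2 ≠ c ^ 2 * ι w := by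
    intro v w hv h
    have h1 : (Polynomial.C v) ^ 2 = Polynomial.X ^ 2 * Polynomial.C w := by
      apply IsFractionRing.injective (Polynomial κ) K0
      apply (algebraMap K0 E).injective
      simp only [map_pow, map_mul]
      exact h
    have h2 := congrArg (Polynomial.eval 0) h1
    simp at h2
    exact hv h2
  have hιinj : Function.Injective ι := ι.injective
  have hres : ∀ (m : ℕ) (j : Fin (m + 1)) (i i' : Fin (2 * m + 1 + 1)), i ≠ i' →
      (ι (a m i) * ι (b m i') + ι (a m i') * ι (b m i)) ^ 2 ≠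
      c ^ 2 * ((ι (lam m j) * ι (a m i) + ι (b m i)) * (ι (lam m j) * ι (a m i') + ι (b m i'))) := by
    intro m j i i' hii
    have := hcκ (a m i * b m i' + a m i' * b m i)
      ((lam m j * a m i + b m i) * (lam m j * a m i' + b m i')) (hvv m i i' hii)
    simpa only [map_add, map_mul] using this
  have hane : ∀ (m : ℕ) (i : Fin (2 * m + 1 + 1)), ι (a m i) ≠ 0 := by
    intro m i
    rw [ne_eq, map_eq_zero]
    show algebraMap (MvPolynomial ℕ k₀) κ (X (i : ℕ)) ≠ 0
    rw [ne_eq, map_eq_zero_iff _ hinjκ]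
    exact MvPolynomial.X_ne_zero _
  have hlaminj : ∀ m : ℕ, Function.Injective (fun j => ι (lam m j)) := by
    intro m j j' h
    have h1 := hinjκ (hιinj h)
    exact Fin.ext (MvPolynomial.X_injective h1)
  have H2 : ∀ m : ℕ, ∀ p : Fin (2 * m + 1 + 1) → E, p ≠ 0 →
      pen (fun i => ι (a m i)) (fun i => ι (b m i)) (fun j => ι (lam m j)) c 1 0 p = 0 →
      False := fun m p hp h =>
    point_E (κ := κ) (K := K0) (E := E) hE' (a m) (b m) (lam m) (hab m) ι (fun _ => rfl) c rfl
      p hp h
  refine ⟨E, inferInstance, toE.toAlgebra, ⟨Pool.Agent.Y233.Cd.cdLeOne_of hE2, ?_⟩, ?_⟩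
  · -- a separable quadratic polynomial without root
    have ha0 := hane 0 0
    refine h1_of_quadratic (c / ι (a 0 0)) (ι (a 0 1) / ι (a 0 0)) (div_ne_zero hc ha0)
      fun t ht => ?_
    refine H2 0 ![t, 1] (fun h0 => ?_) ?_
    · have := congrFun h0 1
      simp at this
    · unfold pen
      rw [Fin.sum_univ_two, Fin.sum_univ_one]
      have e1 : lo (0 : Fin (0 + 1)) = 0 := rfl
      have e2 : hi (0 : Fin (0 + 1)) = 1 := rfl
      rw [e1, e2]
      simp only [Matrix.cons_val_zero, Matrix.cons_val_one]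
      field_simp at ht
      linear_combination ht
  · intro m hm
    refine ⟨qf m (fun i => ι (a m i)) (fun _ => c),
      qf m (fun i => ι (b m i)) (fun j => c * ι (lam m j)), qf_homogeneous _ _ _,
      qf_homogeneous _ _ _, ?_, ?_, ?_⟩
    · exact smooth_ci m _ _ (fun j => ι (lam m j)) (hlaminj m) c hc (hane m)
        (fun j => hres m j (lo j) (hi j) (lo_ne_hi j j))
    · apply no_point
      exact fun d hd => four_dvd hirr _ _ (fun j => ι (lam m j)) c
        (fun α β hαβ p q j0 hp hq h => plane_E (κ := κ) (K := K0) (E := E) hE' (a m) (b m)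
          (lam m) (hab m) ι (fun _ => rfl) c rfl α β hαβ p q j0 hp hq h) (H2 m) d hd
    · apply index_four
      · exact fun d hd => four_dvd hirr _ _ (fun j => ι (lam m j)) c
          (fun α β hαβ p q j0 hp hq h => plane_E (κ := κ) (K := K0) (E := E) hE' (a m) (b m)
            (lam m) (hab m) ι (fun _ => rfl) c rfl α β hαβ p q j0 hp hq h) (H2 m) d hd
      · have h2 : 2 < 2 * m + 1 + 1 := by omega
        refine exists_small_point _ _ (fun j => ι (lam m j)) c hc ⟨2, h2⟩ rfl
          (hres m 0 (lo 0) (hi 0) (lo_ne_hi 0 0)) ?_ ?_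
        · rw [← map_mul, ← map_add]
          exact (map_ne_zero ι).2 (hlamab m 0 (hi 0))
        · have hne : hi (0 : Fin (m + 1)) ≠ ⟨2, h2⟩ := by
            intro h
            have := congrArg Fin.val h
            simp [hi] at this
          have h3 := (map_ne_zero ι).2 (hvv m (hi 0) ⟨2, h2⟩ hne)
          rw [map_add, map_mul, map_mul] at h3
          exact h3

end Pool.Agent.Q49.CQ
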